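import Mathlib
import Pool.Agent.L7h19.RJ.Defs

/-!
# Moments of `2 ^ rank` for binary families of odd degree: definitions

The local conditions of the three classes of multiplicative primes with a sign, and the average
over the signs of the product of the numbers of solutions for several copies of the curve.
-/

set_option autoImplicit false

namespace Pool.Agent.L7h19.RH

open Finset Pool.Agent.W262.RK

/-- the local conditions for the class `c` with the sign `neg` -/
def LS (c : Fin 3) (neg : Bool) (v w h g : Bool) : Prop :=
  if c = 0 then v = w ∧ xor h g = (v && neg)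
  else if c = 1 then w = false ∧ g = (v && neg)
  else v = false ∧ h = (w && neg)

/-- the local conditions for the tuple `s` -/
def LSs {J : Type} (cls : J → Fin 3) (s : J → ℕ) (E : Finset ℕ) (p : ℕ) (v w h g : Bool) : Prop :=
  ∀ j, p ∣ s j → LS (cls j) (decide (p ∈ E)) v w h g

/-- the direction of the class -/
def e3 (c : Fin 3) : Bool × Bool :=
  if c = 0 then (true, true) else if c = 1 then (true, false) else (false, true)

/-- the allowed types for one copy -/
def AlS (c : Fin 3) (v x : Bool × Bool) : Bool :=
  (decide (v = (false, false)) || decide (v = e3 c)) &&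
    (decide (x = (false, false)) || decide (x = (e3 c).swap))

/-- does the sign occur? -/
def qS (v x : Bool × Bool) : Bool := !decide (v = (false, false)) && !decide (x = (false, false))

/-- the parity of the number of the copies where the sign occurs -/
def QS {ι : Type} [Fintype ι] (v x : ι → Bool × Bool) : Bool :=
  decide (Odd (univ.filter (fun i => qS (v i) (x i) = true)).card)

/-- the allowed types -/
def AlK {ι : Type} [Fintype ι] (c : Fin 3) (v x : ι → Bool × Bool) : Bool :=
  decide ((∀ i, AlS c (v i) (x i) = true) ∧ QS v x = false)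

/-- the primes of the tuple -/
def Q0 {J : Type} [Fintype J] (s : J → ℕ) : Finset ℕ := (∏ j, s j).primeFactors

/-- the average over the signs -/
noncomputable def NS (ι : Type) [Fintype ι] {J : Type} [Fintype J] (cls : J → Fin 3)
    (s : J → ℕ) : ℝ :=
  (1 / 2) ^ (Q0 s).card * ∑ E ∈ (Q0 s).powerset, ∏ _i : ι, (NL (∏ j, s j) (LSs cls s E) : ℝ)

/-- the index set: `(j, v, χ)` -/
def IK (ι : Type) [Fintype ι] {J : Type} (cls : J → Fin 3) : Type :=
  {a : J × (ι → Bool × Bool) × (ι → Bool × Bool) // AlK (cls a.1) a.2.1 a.2.2 = true}

instance (ι : Type) [Fintype ι] [DecidableEq ι] {J : Type} [Fintype J] (cls : J → Fin 3) :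
    Fintype (IK ι cls) := by unfold IK; infer_instance

instance (ι : Type) [Fintype ι] [DecidableEq ι] {J : Type} [DecidableEq J] (cls : J → Fin 3) :
    DecidableEq (IK ι cls) := fun a b => decidable_of_iff (a.1 = b.1) (Subtype.ext_iff.symm)

/-- the symbol `(d a / d a')` occurs if `χ_{a'}(v_a) = 1` -/
def LK {ι : Type} [Fintype ι] [DecidableEq ι] {J : Type} {cls : J → Fin 3} (a a' : IK ι cls) :
    Bool := Pool.Agent.L7h19.RJ.PR a.1.2.1 a'.1.2.2

end Pool.Agent.L7h19.RH
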