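import Mathlib
import Pool.Agent.L7h19.RH.Defs

/-!
# The largest unlinked set for two copies (three classes with signs)

For two copies the allowed nonzero types of a class are the nine points of a `3 × 3` grid, two
points of different classes being unlinked exactly when they share a row or a column. The shifts of
the grid give a cover by cliques.
-/

set_option autoImplicit false

namespace Pool.Agent.L7h19.RH

open Finset Pool.Agent.W262.RK Pool.Agent.L7h19.RJ

/-- a type in bits: `(b0, b1, d0, d1)` -/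
def Bt : Type := Bool × Bool × Bool × Bool

/-- the code of two bits -/
def cd (a b : Bool) : Fin 3 := if a = false then 0 else if b = false then 1 else 2

/-- the index of the clique -/
def cq (c : Fin 3) (b0 b1 d0 d1 : Bool) : Fin 4 × Fin 3 :=
  if (b0 || b1 || d0 || d1) = false then (3, c)
  else ((cd (b0 || b1) (d0 || d1) - c).castSucc, cd (b0 || d1) (b1 || d0) - c)

/-- the form on bits -/
def fb (b0 b1 d0 d1 : Bool) : Bool := xor (b0 && d0) (b1 && d1)

lemma cq_key : ∀ c c' : Fin 3, ∀ b0 b1 d0 d1 b0' b1' d0' d1' : Bool,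
    fb b0 b1 d0 d1 = false → fb b0' b1' d0' d1' = false →
    cq c b0 b1 d0 d1 = cq c' b0' b1' d0' d1' →
    (c ≠ c' → fb b0 b1 d0' d1' = fb b0' b1' d0 d1) →
    c = c' ∧ b0 = b0' ∧ b1 = b1' ∧ d0 = d0' ∧ d1 = d1' := by
  decide +kernel

lemma PR_two (v x : Fin 2 → Bool × Bool) : PR v x = xor (pr (v 0) (x 0)) (pr (v 1) (x 1)) := by
  unfold PR
  have h : (univ : Finset (Fin 2)) = {0, 1} := by decide
  rw [h, Finset.filter_insert, Finset.filter_singleton]
  cases h0 : pr (v 0) (x 0) <;> cases h1 : pr (v 1) (x 1) <;> simp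

lemma QS_two (v x : Fin 2 → Bool × Bool) : QS v x = xor (qS (v 0) (x 0)) (qS (v 1) (x 1)) := by
  unfold QS
  have h : (univ : Finset (Fin 2)) = {0, 1} := by decide
  rw [h, Finset.filter_insert, Finset.filter_singleton]
  cases h0 : qS (v 0) (x 0) <;> cases h1 : qS (v 1) (x 1) <;> simp

/-- the bit -/
def bit (v : Bool × Bool) : Bool := !decide (v = (false, false))

lemma AlS_bits : ∀ c : Fin 3, ∀ v x : Bool × Bool, AlS c v x = true →
    v = (if bit v = true then e3 c else (false, false)) ∧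
    x = (if bit x = true then (e3 c).swap else (false, false)) := by
  decide +kernel

lemma qS_bits (v x : Bool × Bool) : qS v x = (bit v && bit x) := rfl

lemma pr_bits : ∀ c c' : Fin 3, ∀ b d : Bool,
    pr (if b = true then e3 c else (false, false)) (if d = true then (e3 c').swap else
      (false, false)) = (b && d && decide (c ≠ c')) := by
  decide +kernel

variable {J : Type} [Fintype J] [DecidableEq J]

lemma AlK_of {ι : Type} [Fintype ι] {c : Fin 3} {v x : ι → Bool × Bool} (h : AlK c v x = true) :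
    (∀ i, AlS c (v i) (x i) = true) ∧ QS v x = false := by
  unfold AlK at h
  exact of_decide_eq_true h

/-- the clique of an index -/
def cqi {cls : J → Fin 3} (a : IK (Fin 2) cls) : Fin 4 × Fin 3 :=
  cq (cls a.1.1) (bit (a.1.2.1 0)) (bit (a.1.2.1 1)) (bit (a.1.2.2 0)) (bit (a.1.2.2 1))

lemma alk {cls : J → Fin 3} (a : IK (Fin 2) cls) (i : Fin 2) :
    AlS (cls a.1.1) (a.1.2.1 i) (a.1.2.2 i) = true := by
  exact (AlK_of a.2).1 i

lemma LK_bits {cls : J → Fin 3} (a a' : IK (Fin 2) cls) :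
    LK a a' = (decide (cls a.1.1 ≠ cls a'.1.1) && fb (bit (a.1.2.1 0)) (bit (a.1.2.1 1))
      (bit (a'.1.2.2 0)) (bit (a'.1.2.2 1))) := by
  unfold LK
  rw [PR_two]
  have h0 := (AlS_bits _ _ _ (alk a 0)).1
  have h1 := (AlS_bits _ _ _ (alk a 1)).1
  have h2 := (AlS_bits _ _ _ (alk a' 0)).2
  have h3 := (AlS_bits _ _ _ (alk a' 1)).2
  rw [h0, h1, h2, h3, pr_bits, pr_bits, ← h0, ← h1, ← h2, ← h3]
  unfold fb
  generalize bit (a.1.2.1 0) = b0
  generalize bit (a.1.2.1 1) = b1
  generalize bit (a'.1.2.2 0) = d0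
  generalize bit (a'.1.2.2 1) = d1
  generalize decide (cls a.1.1 ≠ cls a'.1.1) = e
  revert b0 b1 d0 d1 e
  decide

lemma cqi_inj {cls : J → Fin 3} (a a' : IK (Fin 2) cls) (h : LK a a' = LK a' a)
    (hc : cqi a = cqi a') : cls a.1.1 = cls a'.1.1 ∧ a.1.2 = a'.1.2 := by
  have hq : ∀ b : IK (Fin 2) cls, fb (bit (b.1.2.1 0)) (bit (b.1.2.1 1)) (bit (b.1.2.2 0))
      (bit (b.1.2.2 1)) = false := by
    intro b
    have h2 := (AlK_of b.2).2
    rw [QS_two] at h2
    exact h2
  have key := cq_key (cls a.1.1) (cls a'.1.1) (bit (a.1.2.1 0)) (bit (a.1.2.1 1))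
    (bit (a.1.2.2 0)) (bit (a.1.2.2 1)) (bit (a'.1.2.1 0)) (bit (a'.1.2.1 1))
    (bit (a'.1.2.2 0)) (bit (a'.1.2.2 1)) (hq a) (hq a') hc (by
      intro hne
      rw [LK_bits, LK_bits] at h
      simpa [hne, hne.symm] using h)
  obtain ⟨e0, e1, e2, e4, e5⟩ := key
  refine ⟨e0, ?_⟩
  have hv : a.1.2.1 = a'.1.2.1 := by
    funext i
    rw [(AlS_bits _ _ _ (alk a i)).1, (AlS_bits _ _ _ (alk a' i)).1, e0]
    have : bit (a.1.2.1 i) = bit (a'.1.2.1 i) := by
      fin_cases i
      · exact e1
      · exact e2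
    rw [this]
  have hx : a.1.2.2 = a'.1.2.2 := by
    funext i
    rw [(AlS_bits _ _ _ (alk a i)).2, (AlS_bits _ _ _ (alk a' i)).2, e0]
    have : bit (a.1.2.2 i) = bit (a'.1.2.2 i) := by
      fin_cases i
      · exact e4
      · exact e5
    rw [this]
  exact Prod.ext hv hx

/-- the largest unlinked set -/
theorem combs (cls : J → Fin 3) (n : ℕ)
    (hn : ∀ c : Fin 3, (univ.filter (fun j => cls j = c)).card = n)
    (U : Finset (IK (Fin 2) cls)) (hU : ∀ a ∈ U, ∀ a' ∈ U, LK a a' = LK a' a) :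
    ∑ _a ∈ U, ((1 / 2 : ℝ) ^ Fintype.card (Fin 2)) ≤ ((Fintype.card J : ℕ) : ℝ) := by
  classical
  have h1 : U.card ≤ 12 * n := by
    have h2 : U.card = ∑ t : Fin 4 × Fin 3, (U.filter fun a => cqi a = t).card :=
      Finset.card_eq_sum_card_fiberwise fun _ _ => Finset.mem_univ _
    rw [h2]
    have h3 : ∀ t : Fin 4 × Fin 3, (U.filter fun a => cqi a = t).card ≤ n := by
      intro t
      rcases (U.filter fun a => cqi a = t).eq_empty_or_nonempty with h4 | ⟨a0, ha0⟩
      · rw [h4]
        simp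
      · rw [← hn (cls a0.1.1)]
        rw [mem_filter] at ha0
        refine Finset.card_le_card_of_injOn (fun a => a.1.1) ?_ ?_
        · intro a ha
          rw [Finset.mem_coe, mem_filter] at ha
          rw [Finset.mem_coe, mem_filter]
          refine ⟨mem_univ _, ?_⟩
          exact (cqi_inj a a0 (hU a ha.1 a0 ha0.1) (ha.2.trans ha0.2.symm)).1
        · intro a ha b hb hab
          rw [Finset.mem_coe, mem_filter] at ha hb
          have h5 := (cqi_inj a b (hU a ha.1 b hb.1) (ha.2.trans hb.2.symm)).2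
          exact Subtype.ext (Prod.ext hab h5)
    refine (Finset.sum_le_sum fun t _ => h3 t).trans ?_
    rw [Finset.sum_const, Finset.card_univ]
    simp
  have h6 : Fintype.card J = 3 * n := by
    have h7 : (univ : Finset J).card = ∑ c : Fin 3, (univ.filter fun j => cls j = c).card :=
      Finset.card_eq_sum_card_fiberwise fun _ _ => Finset.mem_univ _
    rw [Finset.card_univ] at h7
    rw [h7, Finset.sum_congr rfl fun c _ => hn c]
    simp
  rw [Finset.sum_const, h6, Fintype.card_fin, nsmul_eq_mul]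
  have h8 : (U.card : ℝ) ≤ 12 * n := by exact_mod_cast h1
  push_cast
  nlinarith

end Pool.Agent.L7h19.RH
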