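import Pool.Agent.L7h19.RJ.Exp
import Pool.Agent.L7h19.RH.Defs

/-!
# The expansion into symbols (three classes with signs)
-/

set_option autoImplicit false

namespace Pool.Agent.L7h19.RH

open Finset Pool.Agent.W262.RK Pool.Agent.W108.RK Pool.Agent.W762.RK2 Pool.Agent.L7h19.RJ

section local_identity

/-- the local identity for one curve -/
lemma loc_oneS (c : Fin 3) (neg : Bool) (v : Bool × Bool) (h g : Bool) :
    ind (LS c neg v.1 v.2 h g) =
      ∑ x : Bool × Bool, if AlS c v x = true then
        (1 / 2) * (if neg = true ∧ qS v x = true then -1 else 1) *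
          ((if x.1 = true then sg h else 1) * (if x.2 = true then sg g else 1)) else 0 := by
  obtain ⟨v1, v2⟩ := v
  simp only [Fintype.sum_prod_type, Fintype.sum_bool]
  fin_cases c
  · cases v1 <;> cases v2 <;>
      simp [LS, AlS, e3, qS, ind] <;>
      cases neg <;> cases h <;> cases g <;> simp [sg] <;> norm_num
  · cases v1 <;> cases v2 <;>
      simp [LS, AlS, e3, qS, ind] <;>
      cases neg <;> cases h <;> cases g <;> simp [sg] <;> norm_num
  · cases v1 <;> cases v2 <;>
      simp [LS, AlS, e3, qS, ind] <;>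
      cases neg <;> cases h <;> cases g <;> simp [sg] <;> norm_num

lemma pr_AlS (c : Fin 3) (v x : Bool × Bool) (h : AlS c v x = true) : pr v x = false := by
  revert h
  revert c v x
  decide

end local_identity

section joint

variable {ι : Type} [Fintype ι] [DecidableEq ι]

lemma prod_sgn_qS (neg : Bool) (v x : ι → Bool × Bool) :
    ∏ i, (if neg = true ∧ qS (v i) (x i) = true then (-1 : ℝ) else 1) =
      if neg = true ∧ QS v x = true then -1 else 1 := by
  cases neg with
  | false => simp
  | true =>
    simp only [true_and]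
    rw [← Finset.prod_filter, Finset.prod_const]
    unfold QS
    by_cases h : Odd (univ.filter (fun i => qS (v i) (x i) = true)).card
    · rw [h.neg_one_pow]
      simp [h]
    · have h' := Nat.not_odd_iff_even.1 h
      rw [h'.neg_one_pow]
      simp [h]

/-- the local identity, joint form -/
lemma loc_jointS (c : Fin 3) (v : ι → Bool × Bool) (h g : ι → Bool) :
    ((∏ i, ind (LS c true (v i).1 (v i).2 (h i) (g i))) +
      ∏ i, ind (LS c false (v i).1 (v i).2 (h i) (g i))) / 2 =
      ∑ x : ι → Bool × Bool, if AlK c v x = true then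
        (1 / 2) ^ Fintype.card ι *
          ∏ i, ((if (x i).1 = true then sg (h i) else 1) *
            (if (x i).2 = true then sg (g i) else 1)) else 0 := by
  have h1 : ∀ neg : Bool, ∏ i, ind (LS c neg (v i).1 (v i).2 (h i) (g i)) =
      ∑ x : ι → Bool × Bool, if ∀ i, AlS c (v i) (x i) = true then
        (if neg = true ∧ QS v x = true then -1 else 1) *
        ((1 / 2) ^ Fintype.card ι *
          ∏ i, ((if (x i).1 = true then sg (h i) else 1) *
            (if (x i).2 = true then sg (g i) else 1))) else 0 := by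
    intro neg
    rw [Finset.prod_congr rfl fun i _ => loc_oneS c neg (v i) (h i) (g i)]
    rw [Finset.prod_univ_sum, Fintype.piFinset_univ]
    refine Finset.sum_congr rfl fun x _ => ?_
    by_cases hx : ∀ i, AlS c (v i) (x i) = true
    · rw [if_pos hx, Finset.prod_congr rfl fun i _ => if_pos (hx i)]
      rw [Finset.prod_mul_distrib, Finset.prod_mul_distrib, prod_sgn_qS, Finset.prod_const,
        Finset.card_univ]
      ring
    · rw [if_neg hx]
      push Not at hx
      obtain ⟨i, hi⟩ := hx
      exact Finset.prod_eq_zero (Finset.mem_univ i) (if_neg hi)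
  rw [h1 true, h1 false, ← Finset.sum_add_distrib, Finset.sum_div]
  refine Finset.sum_congr rfl fun x _ => ?_
  unfold AlK
  by_cases hx : ∀ i, AlS c (v i) (x i) = true
  · by_cases hP : QS v x = true
    · simp [hx, hP]
    · have hP' : QS v x = false := by simpa using hP
      simp only [hx, hP', implies_true, if_true]
      simp
  · simp [hx]

lemma PR_AlK (c : Fin 3) (v x : ι → Bool × Bool) (h : AlK c v x = true) : PR v x = false := by
  unfold AlK at h
  have h1 := (of_decide_eq_true h).1
  unfold PR
  have : univ.filter (fun i => pr (v i) (x i) = true) = ∅ := by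
    refine Finset.filter_eq_empty_iff.2 fun i _ hi => ?_
    rw [pr_AlS c _ _ (h1 i)] at hi
    exact absurd hi (by decide)
  rw [this]
  simp

end joint

section average

variable {ι : Type} [Fintype ι] [DecidableEq ι]
variable {J : Type} [Fintype J] [DecidableEq J] {z y : ℕ}

/-- the local indicator -/
noncomputable def Ils (cls : J → Fin 3) (s : J → ℕ)
    (d : ι → ℕ × ℕ) (neg : Bool) (p : ℕ) : ℝ :=
  ∏ i, ind (∀ j, p ∣ s j → LS (cls j) neg (dv p (d i).1) (dv p (d i).2)
    (sgn p (d i).1) (sgn p (d i).2))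

lemma NS_eq (cls : J → Fin 3) {s : J → ℕ} (hs : s ∈ Tup J z y) :
    NS ι cls s = ∑ d ∈ DD ι (∏ j, s j),
      ∏ p ∈ (∏ j, s j).primeFactors, (Ils cls s d true p + Ils cls s d false p) / 2 := by
  classical
  have h1 : ∀ E : Finset ℕ, ∏ _i : ι, (NL (∏ j, s j) (LSs cls s E) : ℝ) =
      ∑ d ∈ DD ι (∏ j, s j),
        ∏ p ∈ (∏ j, s j).primeFactors, Ils cls s d (decide (p ∈ E)) p := by
    intro E
    have h2 : (NL (∏ j, s j) (LSs cls s E) : ℝ) =
        ∑ d ∈ (∏ j, s j).divisors ×ˢ (∏ j, s j).divisors,
          ∏ p ∈ (∏ j, s j).primeFactors, ind (∀ j, p ∣ s j → LS (cls j)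
            (decide (p ∈ E)) (dv p d.1) (dv p d.2) (sgn p d.1) (sgn p d.2)) := by
      unfold NL
      rw [Finset.card_filter]
      push_cast
      refine Finset.sum_congr rfl fun d _ => ?_
      rw [prod_ind]
      unfold ind LSs
      congr
    rw [Finset.prod_congr rfl fun i _ => h2, Finset.prod_univ_sum]
    unfold DD
    refine Finset.sum_congr rfl fun d _ => ?_
    unfold Ils
    rw [Finset.prod_comm]
  unfold NS
  rw [Finset.sum_congr rfl fun E _ => h1 E, Finset.sum_comm, Finset.mul_sum]
  refine Finset.sum_congr rfl fun d _ => ?_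
  refine avg (Q0 s) (∏ j, s j).primeFactors (Finset.Subset.refl _) (Ils cls s d) ?_
  intro p hp hpA
  exact absurd hp hpA

end average

section final

variable {ι : Type} [Fintype ι] [DecidableEq ι]
variable {J : Type} [Fintype J] [DecidableEq J] {z y : ℕ}

/-- the local term -/
noncomputable def Tms (cls : J → Fin 3) (c : ℕ)
    (ξ : Pr z y → Option (J × (ι → Bool × Bool))) (p : Pr z y) : ℝ :=
  (ξ p).elim 1 fun a => 1 / ((p : ℝ) - c) * (((∏ i, ind (LS (cls a.1) true
    (a.2 i).1 (a.2 i).2 (sgn p (D1j i ξ)) (sgn p (D2j i ξ)))) + ∏ i, ind (LS (cls a.1)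
    false (a.2 i).1 (a.2 i).2 (sgn p (D1j i ξ)) (sgn p (D2j i ξ)))) / 2)

lemma lhs_eqs (cls : J → Fin 3) (c : ℕ) :
    ∑ s ∈ Tup J z y, NS ι cls s * ∏ j, gw 1 c (s j) =
      ∑ ξ : Pr z y → Option (J × (ι → Bool × Bool)), ∏ p, Tms cls c ξ p := by
  have h1 : ∀ s ∈ Tup J z y, NS ι cls s * ∏ j, gw 1 c (s j) =
      ∑ d ∈ DD ι (∏ j, s j),
        (∏ p ∈ (∏ j, s j).primeFactors, (Ils cls s d true p + Ils cls s d false p) / 2) *
          ∏ j, gw 1 c (s j) := by
    intro s hs
    rw [NS_eq cls hs, Finset.sum_mul]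
  rw [Finset.sum_congr rfl h1, sum_bigj fun s d =>
    (∏ p ∈ (∏ j, s j).primeFactors, (Ils cls s d true p + Ils cls s d false p) / 2) *
          ∏ j, gw 1 c (s j)]
  refine Finset.sum_congr rfl fun ξ _ => ?_
  have h2 : ∏ j, gw 1 c (SSj ξ j) = ∏ p : Pr z y, ((ξ p).map Prod.fst).elim 1
      fun _ => 1 / ((p : ℝ) - c) := prod_gw (fun _ => 1) c _
  have h3 : ∏ j, SSj ξ j = nb fun p => ((ξ p).map Prod.fst).isSome := prod_Dl _
  rw [h2, h3, prod_pf _ fun p => (Ils cls (SSj ξ) (fun i => (D1j i ξ, D2j i ξ)) true p +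
    Ils cls (SSj ξ) (fun i => (D1j i ξ, D2j i ξ)) false p) / 2, ← Finset.prod_mul_distrib]
  refine Finset.prod_congr rfl fun p _ => ?_
  unfold Tms
  cases hx : ξ p with
  | none => simp
  | some a =>
    have h4 : ∀ neg, Ils cls (SSj ξ) (fun i => (D1j i ξ, D2j i ξ)) neg p =
        ∏ i, ind (LS (cls a.1) neg (a.2 i).1 (a.2 i).2 (sgn p (D1j i ξ))
          (sgn p (D2j i ξ))) := by
      intro neg
      unfold Ils
      refine Finset.prod_congr rfl fun i _ => ?_
      have e1 : dv p (D1j i ξ : ℤ) = (a.2 i).1 := by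
        have : b1j i (ξ p) = (a.2 i).1 := by rw [hx]; rfl
        rw [← this]
        unfold dv
        rw [Bool.eq_iff_iff, decide_eq_true_iff, Int.natCast_dvd_natCast]
        exact dvd_nb _ p
      have e2 : dv p (D2j i ξ : ℤ) = (a.2 i).2 := by
        have : b2j i (ξ p) = (a.2 i).2 := by rw [hx]; rfl
        rw [← this]
        unfold dv
        rw [Bool.eq_iff_iff, decide_eq_true_iff, Int.natCast_dvd_natCast]
        exact dvd_nb _ p
      have e3 : ∀ j, (p : ℕ) ∣ SSj ξ j ↔ j = a.1 := by
        intro j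
        unfold SSj Dl
        rw [dvd_nb, decide_eq_true_iff]
        show (ξ p).map Prod.fst = some j ↔ j = a.1
        rw [hx]
        simp [eq_comm]
      congr 1
      simp only [e1, e2, e3, forall_eq]
    simp only [h4]
    simp only [Option.map_some, Option.isSome_some, if_true, Option.elim]
    ring

lemma sum_IK (cls : J → Fin 3)
    (F : J × (ι → Bool × Bool) × (ι → Bool × Bool) → ℝ) :
    ∑ i : IK ι cls, F i.1 =
      ∑ r, if AlK (cls r.1) r.2.1 r.2.2 = true then F r else 0 := by
  rw [← Finset.sum_filter]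
  exact (Finset.sum_subtype (univ.filter fun r : J × (ι → Bool × Bool) × (ι → Bool × Bool) =>
    AlK (cls r.1) r.2.1 r.2.2 = true) (fun x => by simp) F).symm

/-- forget the character -/
def fgs {cls : J → Fin 3} (x : Option (IK ι cls)) : Option (J × (ι → Bool × Bool)) :=
  x.map fun i => (i.1.1, i.1.2.1)

/-- the local factor -/
noncomputable def Gs (cls : J → Fin 3) (c : ℕ)
    (ξ : Pr z y → Option (J × (ι → Bool × Bool))) (p : Pr z y) (x : Option (IK ι cls)) : ℝ :=
  x.elim 1 fun a => 1 / ((p : ℝ) - c) * ((1 / 2) ^ Fintype.card ι *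
    ∏ i, ((if (a.1.2.2 i).1 = true then sg (sgn p (D1j i ξ)) else 1) *
      (if (a.1.2.2 i).2 = true then sg (sgn p (D2j i ξ)) else 1)))

lemma sum_Gs (cls : J → Fin 3) (c : ℕ)
    (ξ : Pr z y → Option (J × (ι → Bool × Bool))) (p : Pr z y) :
    ∑ x ∈ univ.filter (fun x : Option (IK ι cls) => fgs x = ξ p), Gs cls c ξ p x =
      Tms cls c ξ p := by
  rw [Finset.sum_filter, Fintype.sum_option]
  unfold Tms
  cases hx : ξ p with
  | none => simp [fgs, Gs]
  | some a =>
    obtain ⟨j, v⟩ := a
    have h0 : (if fgs (none : Option (IK ι cls)) = some (j, v) then Gs cls c ξ p none else 0) =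
        0 := by
      rw [if_neg]
      simp [fgs]
    rw [h0, zero_add]
    set F : J × (ι → Bool × Bool) × (ι → Bool × Bool) → ℝ := fun r =>
          if r.1 = j ∧ r.2.1 = v then 1 / ((p : ℝ) - c) * ((1 / 2) ^ Fintype.card ι *
            ∏ i, ((if (r.2.2 i).1 = true then sg (sgn p (D1j i ξ)) else 1) *
            (if (r.2.2 i).2 = true then sg (sgn p (D2j i ξ)) else 1))) else 0 with hF
    have h1 : ∀ a : IK ι cls, (if fgs (some a) = some (j, v) then Gs cls c ξ p (some a) else 0) =
        F a.1 := by
      intro a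
      refine if_congr ?_ rfl rfl
      simp only [fgs, Option.map_some, Option.some.injEq, Prod.mk.injEq]
    refine (Finset.sum_congr rfl fun i _ => h1 i).trans ((sum_IK cls F).trans ?_)
    rw [Fintype.sum_prod_type, Finset.sum_eq_single j]
    · rw [Fintype.sum_prod_type, Finset.sum_eq_single v]
      · show _ = 1 / ((p : ℝ) - c) * _
        rw [loc_jointS (cls j) v, Finset.mul_sum]
        refine Finset.sum_congr rfl fun x _ => ?_
        simp only [hF, and_self, if_true, mul_ite, mul_zero]
      · intro v' _ hv'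
        refine Finset.sum_eq_zero fun x _ => ?_
        simp [hF, hv']
      · intro h
        exact absurd (Finset.mem_univ _) h
    · intro j' _ hj'
      refine Finset.sum_eq_zero fun x _ => ?_
      simp [hF, hj']
    · intro h
      exact absurd (Finset.mem_univ _) h

lemma PRs_self {cls : J → Fin 3} (a : IK ι cls) : PR a.1.2.1 a.1.2.2 = false :=
  PR_AlK _ _ _ a.2

lemma rhs_terms (cls : J → Fin 3) (c : ℕ)
    (ξ : Pr z y → Option (J × (ι → Bool × Bool))) (l : Pr z y → Option (IK ι cls))
    (h : ∀ p, fgs (l p) = ξ p) :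
    (∏ a, gw ((1 / 2) ^ Fintype.card ι) c (Dl l a)) *
      Pool.Agent.W262.RK.Sym (LK (cls := cls)) (fun _ => 1) (Dl l) =
      ∏ p, Gs cls c ξ p (l p) := by
  rw [prod_gw (fun _ => (1 / 2) ^ Fintype.card ι), Sym_Dl, ← Finset.prod_mul_distrib,
    ← Finset.prod_mul_distrib]
  refine Finset.prod_congr rfl fun p _ => ?_
  cases hl : l p with
  | none =>
    have h0 : ∀ q, lk (LK (cls := cls)) (l q) none = false := by
      intro q
      cases l q <;> rfl
    simp [h0, Gs]
  | some a =>
    have hAl := PRs_self a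
    have h1 : ∀ q, lk (LK (cls := cls)) (l q) (some a) =
        PR (fun i => (b1j i (ξ q), b2j i (ξ q))) a.1.2.2 := by
      intro q
      rw [← h q]
      cases hq : l q with
      | none =>
        have : (fun i : ι => (b1j i (fgs (none : Option (IK ι cls))),
            b2j i (fgs (none : Option (IK ι cls))))) = fun _ => (false, false) := by
          funext i
          rfl
        rw [this, PR_zero]
        rfl
      | some a' => rfl
    have h2 : ∏ q : Pr z y, (if lk (LK (cls := cls)) (l q) (some a) = true then Jr (q : ℕ) p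
        else 1) =
        ∏ i, ((if (a.1.2.2 i).1 = true then sg (sgn p (D1j i ξ)) else 1) *
      (if (a.1.2.2 i).2 = true then sg (sgn p (D2j i ξ)) else 1)) := by
      have h3 : ∀ a : Bool, ∀ b : Pr z y → Bool, (if a = true then sg (sgn p (nb b : ℤ)) else 1) =
          ∏ q : Pr z y, if a = true then (if q ≠ p ∧ b q = true then Jr (q : ℕ) p else 1)
            else 1 := by
        intro a b
        cases a
        · simp
        · simp only [if_true]
          exact sgn_nb b p
      have h4 : ∀ i, ((if (a.1.2.2 i).1 = true then sg (sgn p (D1j i ξ)) else 1) *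
          (if (a.1.2.2 i).2 = true then sg (sgn p (D2j i ξ)) else 1)) =
          ∏ q : Pr z y, ((if (a.1.2.2 i).1 = true then
            (if q ≠ p ∧ b1j i (ξ q) = true then Jr (q : ℕ) p else 1) else 1) *
          (if (a.1.2.2 i).2 = true then
            (if q ≠ p ∧ b2j i (ξ q) = true then Jr (q : ℕ) p else 1) else 1)) := by
        intro i
        unfold D1j D2j
        rw [h3, h3, ← Finset.prod_mul_distrib]
      rw [Finset.prod_congr rfl fun i _ => h4 i, Finset.prod_comm]
      refine Finset.prod_congr rfl fun q _ => ?_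
      rw [h1]
      refine bits_eqj q p _ _ fun hqp => ?_
      rw [hqp, ← h p, hl]
      exact hAl
    rw [h2]
    unfold Gs
    have e5 : Jr 1 p = 1 := Jr_one_left p
    simp only [Option.elim, e5]
    ring

end final

/-- the expansion of the average over the signs into symbols -/
theorem exps {ι : Type} [Fintype ι] [DecidableEq ι] {J : Type} [Fintype J] [DecidableEq J]
    (cls : J → Fin 3) (c z y : ℕ) :
    ∑ s ∈ Tup J z y, NS ι cls s * ∏ j, gw 1 c (s j) =
      ∑ d ∈ Tup (IK ι cls) z y, (∏ a, gw ((1 / 2) ^ Fintype.card ι) c (d a)) *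
        Pool.Agent.W262.RK.Sym (LK (cls := cls)) (fun _ => 1) d := by
  classical
  rw [lhs_eqs, sum_Tup, ← Finset.sum_fiberwise univ
    (fun (l : Pr z y → Option (IK ι cls)) => fun p => fgs (l p))]
  refine Finset.sum_congr rfl fun ξ _ => ?_
  have h1 : (univ.filter fun l : Pr z y → Option (IK ι cls) => (fun p => fgs (l p)) = ξ) =
      Fintype.piFinset (fun p => univ.filter (fun x : Option (IK ι cls) => fgs x = ξ p)) := by
    ext l
    simp only [Finset.mem_filter, Finset.mem_univ, true_and, Fintype.mem_piFinset, funext_iff]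
  rw [h1, Finset.prod_congr rfl fun p _ => (sum_Gs cls c ξ p).symm, Finset.prod_univ_sum]
  refine Finset.sum_congr rfl fun l hl => ?_
  rw [Fintype.mem_piFinset] at hl
  exact (rhs_terms cls c ξ l fun p => (Finset.mem_filter.1 (hl p)).2).symm

end Pool.Agent.L7h19.RH
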