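import Mathlib
import Pool.Agent.L7h19.RH.Exp
import Pool.Agent.L7h19.RH.Comb
import Pool.Agent.W262.RK.MA

/-!
# The average of the majorant
-/

set_option autoImplicit false

namespace Pool.Agent.L7h19.RH

open Finset Pool.Agent.W262.RK

variable {J : Type} [Fintype J] [DecidableEq J]

/-- the average of `NS` is bounded by `(log y) ^ |J|` -/
theorem majs (cls : J → Fin 3) (n : ℕ)
    (hn : ∀ c : Fin 3, (univ.filter (fun j => cls j = c)).card = n) (c : ℕ) :
    ∃ z0 : ℕ, ∀ z, z0 ≤ z → ∃ C : ℝ, ∀ y, z < y →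
      ∑ s ∈ Tup J z y, NS (Fin 2) cls s * ∏ j, gw 1 c (s j) ≤
        C * (Real.log y) ^ (Fintype.card J) := by
  obtain ⟨z0, hz0⟩ := at_thm (IK (Fin 2) cls) (fun _ => (1 / 2) ^ Fintype.card (Fin 2))
    (LK (cls := cls)) (fun _ => 1) c ((Fintype.card J : ℕ) : ℝ)
    (fun a => by norm_num)
    (fun a => PRs_self a)
    (fun a => one_ne_zero)
    (fun U hU => combs cls n hn U hU)
  refine ⟨z0, fun z hz => ?_⟩
  obtain ⟨C, hC⟩ := hz0 z hz
  refine ⟨C, fun y hy => ?_⟩
  rw [exps cls c z y]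
  refine (le_trans (le_abs_self _) (hC y hy)).trans (le_of_eq ?_)
  rw [Real.rpow_natCast]

end Pool.Agent.L7h19.RH
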