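import Pool.Agent.W125.RK2.SUB4
import Pool.Agent.L7h19.RH.Defs

/-!
# The index of the subgroup given by the local conditions at some primes
-/

set_option autoImplicit false

namespace Pool.Agent.L7h19.RH

open Finset Pool.Agent.W262.RK
open Pool.Agent.W125.RK2 (sig dv_sig sgn_sig sig_sq prime_dvd_sig)

lemma sig_dvd' {m d b : ℕ} (hm : Squarefree m) (hd : d ∣ m) (hb : b ∣ m) : sig d b ∣ m := by
  have hds := hm.squarefree_of_dvd hd
  have hbs := hm.squarefree_of_dvd hb
  have hs := sig_sq hds hbs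
  rw [← Nat.prod_primeFactors_of_squarefree hs]
  apply Finset.prod_primes_dvd
  · intro p hp
    exact (Nat.prime_of_mem_primeFactors hp).prime
  · intro p hp
    have hpp := Nat.prime_of_mem_primeFactors hp
    have h1 := (prime_dvd_sig hds hbs hpp).1 (Nat.dvd_of_mem_primeFactors hp)
    rcases h1 with h1 | h1
    · exact h1.1.trans hd
    · exact h1.1.trans hb

lemma sig_inj' {d d' b : ℕ} (hds : Squarefree d) (hds' : Squarefree d') (hbs : Squarefree b)
    (h : sig d b = sig d' b) : d = d' := by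
  rw [Nat.Squarefree.ext_iff hds hds']
  intro p hp
  have a1 := prime_dvd_sig hds hbs hp
  have a2 := prime_dvd_sig hds' hbs hp
  rw [h] at a1
  by_cases c0 : p ∣ b <;> by_cases c1 : p ∣ d <;> by_cases c2 : p ∣ d' <;> simp_all

/-- the index lemma -/
theorem index (m : ℕ) (hm : Squarefree m) (P : Finset ℕ) (L L' : ℕ → Bool → Bool → Bool → Bool → Prop)
    (hL : ∀ p ∈ m.primeFactors, p ∉ P → L p = L' p) (hXC : ∀ p ∈ m.primeFactors, XC (L' p)) :
    NL m L ≤ 16 ^ P.card * NL m L' := by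
  classical
  unfold NL
  set A := (m.divisors ×ˢ m.divisors).filter (fun d : ℕ × ℕ =>
    ∀ p ∈ m.primeFactors, L p (dv p d.1) (dv p d.2) (sgn p d.1) (sgn p d.2)) with hA
  set B := (m.divisors ×ˢ m.divisors).filter (fun d : ℕ × ℕ => ∀ p ∈ m.primeFactors,
    L' p (dv p d.1) (dv p d.2) (sgn p d.1) (sgn p d.2)) with hB
  have hAm : ∀ d ∈ A, (d.1 ∣ m ∧ d.2 ∣ m) ∧ ∀ p ∈ m.primeFactors, p ∉ P →
      L' p (dv p d.1) (dv p d.2) (sgn p d.1) (sgn p d.2) := by
    intro d hd
    rw [hA, mem_filter, mem_product, Nat.mem_divisors, Nat.mem_divisors] at hd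
    refine ⟨⟨hd.1.1.1, hd.1.2.1⟩, fun p hp hpP => ?_⟩
    rw [← hL p hp hpP]
    exact hd.2 p hp
  set f : ℕ × ℕ → (P → (Bool × Bool) × (Bool × Bool)) := fun d p =>
    ((dv p d.1, dv p d.2), (sgn p d.1, sgn p d.2)) with hf
  have hfib : ∀ a ∈ A.image f, (A.filter (fun x => f x = a)).card ≤ B.card := by
    intro a ha
    obtain ⟨b, hb, rfl⟩ := mem_image.1 ha
    have hb' := hAm b hb
    have hb1 := hm.squarefree_of_dvd hb'.1.1
    have hb2 := hm.squarefree_of_dvd hb'.1.2
    apply Finset.card_le_card_of_injOn (fun d : ℕ × ℕ => (sig d.1 b.1, sig d.2 b.2))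
    · intro d hd
      rw [mem_coe, mem_filter] at hd
      have hd' := hAm d hd.1
      have hd1 := hm.squarefree_of_dvd hd'.1.1
      have hd2 := hm.squarefree_of_dvd hd'.1.2
      rw [mem_coe, hB, mem_filter, mem_product, Nat.mem_divisors, Nat.mem_divisors]
      refine ⟨⟨⟨sig_dvd' hm hd'.1.1 hb'.1.1, hm.ne_zero⟩, ⟨sig_dvd' hm hd'.1.2 hb'.1.2,
        hm.ne_zero⟩⟩, ?_⟩
      intro p hp
      have hpp := Nat.prime_of_mem_primeFactors hp
      show L' p (dv p (sig d.1 b.1 : ℕ)) (dv p (sig d.2 b.2 : ℕ)) (sgn p (sig d.1 b.1 : ℕ))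
        (sgn p (sig d.2 b.2 : ℕ))
      rw [dv_sig hd1 hb1 hpp, dv_sig hd2 hb2 hpp, sgn_sig hd1 hb1 hpp, sgn_sig hd2 hb2 hpp]
      by_cases hpP : p ∈ P
      · have h1 := congrFun hd.2 ⟨p, hpP⟩
        simp only [hf, Prod.mk.injEq] at h1
        rw [h1.1.1, h1.1.2, h1.2.1, h1.2.2]
        simp only [Bool.xor_self]
        exact (hXC p hp).1
      · exact (hXC p hp).2 _ _ _ _ _ _ _ _ (hd'.2 p hp hpP) (hb'.2 p hp hpP)
    · intro d hd d' hd' h
      rw [mem_coe, mem_filter] at hd hd'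
      have g := hAm d hd.1
      have g' := hAm d' hd'.1
      have h1 : sig d.1 b.1 = sig d'.1 b.1 := congrArg Prod.fst h
      have h2 : sig d.2 b.2 = sig d'.2 b.2 := congrArg Prod.snd h
      exact Prod.ext
        (sig_inj' (hm.squarefree_of_dvd g.1.1) (hm.squarefree_of_dvd g'.1.1) hb1 h1)
        (sig_inj' (hm.squarefree_of_dvd g.1.2) (hm.squarefree_of_dvd g'.1.2) hb2 h2)
  have h1 := Finset.card_le_mul_card_image A B.card hfib
  have h2 : (A.image f).card ≤ 16 ^ P.card := by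
    refine (Finset.card_le_univ _).trans ?_
    rw [Fintype.card_fun, Fintype.card_coe]
    apply le_of_eq
    congr 1
  calc A.card ≤ B.card * (A.image f).card := h1
    _ ≤ B.card * 16 ^ P.card := Nat.mul_le_mul_left _ h2
    _ = 16 ^ P.card * B.card := mul_comm _ _

end Pool.Agent.L7h19.RH
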