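import Pool.Agent.W125.RK2.SUBB
import Pool.Agent.L7h19.RH.Defs

/-!
# The growth of the local counts (three classes with signs)
-/

set_option autoImplicit false

namespace Pool.Agent.L7h19.RH

open Finset Pool.Agent.W262.RK
open Pool.Agent.W125.RK2 (sum_inter NL_congr)

lemma xc_s (c : Fin 3) (neg : Bool) : XC (LS c neg) := by
  have h0 : ∀ neg : Bool, XC (fun v w h g => v = w ∧ xor h g = (v && neg)) := by
    unfold XC
    decide +kernel
  have h1 : ∀ neg : Bool, XC (fun v w _ g => w = false ∧ g = (v && neg)) := by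
    unfold XC
    decide +kernel
  have h2 : ∀ neg : Bool, XC (fun v w h _ => v = false ∧ h = (w && neg)) := by
    unfold XC
    decide +kernel
  fin_cases c
  · exact h0 neg
  · exact h1 neg
  · exact h2 neg

lemma xc_ss {J : Type} (cls : J → Fin 3) (s : J → ℕ) (E : Finset ℕ) (p : ℕ) :
    XC (LSs cls s E p) := by
  constructor
  · intro j _
    exact (xc_s _ _).1
  · intro a b c d a' b' c' d' g g' j hj
    exact (xc_s _ _).2 _ _ _ _ _ _ _ _ (g j hj) (g' j hj)

variable {ι : Type} [Fintype ι] [DecidableEq ι] {J : Type} [Fintype J] [DecidableEq J]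

lemma NS_nonneg (cls : J → Fin 3) (s : J → ℕ) :
    0 ≤ NS ι cls s := by
  unfold NS
  exact mul_nonneg (by positivity) (sum_nonneg fun _ _ => prod_nonneg fun _ _ => Nat.cast_nonneg _)

theorem subs (cls : J → Fin 3) {z y : ℕ} (s e : J → ℕ)
    (hT : (fun j => s j * e j) ∈ Tup J z y) :
    NS ι cls (fun j => s j * e j) ≤
      ((4 : ℝ) ^ Fintype.card ι) ^ (∑ j, (e j).primeFactors.card) * NS ι cls s := by
  classical
  have hT' : (∀ j, s j * e j ∈ (PP z y).divisors) ∧
      ∀ i j, i ≠ j → (s i * e i).Coprime (s j * e j) := by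
    unfold Tup at hT
    rw [mem_filter, Fintype.mem_piFinset] at hT
    exact hT
  have hsqj : ∀ j, Squarefree (s j * e j) := fun j => dv_squarefree (hT'.1 j)
  have hsq : ∀ U : Finset J, Squarefree (∏ j ∈ U, (s j * e j)) := by
    intro U
    apply Finset.squarefree_prod_of_pairwise_isCoprime
    · intro i _ j _ hij
      exact Nat.coprime_iff_isRelPrime.1 (hT'.2 i j hij)
    · intro j _
      exact hsqj j
  have hs0 : ∀ j, s j ≠ 0 := fun j => left_ne_zero_of_mul (hsqj j).ne_zero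
  have he0 : ∀ j, e j ≠ 0 := fun j => right_ne_zero_of_mul (hsqj j).ne_zero
  set P := Q0 s with hP
  set Q := Q0 e with hQ
  have hprod : ∏ j, (s j * e j) = (∏ j, s j) * ∏ j, e j := Finset.prod_mul_distrib
  have hme : Squarefree ((∏ j, s j) * ∏ j, e j) := by
    rw [← hprod]
    exact hsq univ
  have hPQ : Disjoint P Q := by
    have h1 := Nat.coprime_of_squarefree_mul hme
    exact h1.disjoint_primeFactors
  have hPU : Q0 (fun j => s j * e j) = P ∪ Q := by
    rw [hP, hQ]
    unfold Q0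
    rw [Finset.prod_mul_distrib]
    exact Nat.primeFactors_mul (prod_ne_zero_iff.2 fun j _ => hs0 j)
      (prod_ne_zero_iff.2 fun j _ => he0 j)
  -- primes dividing `∏ s`
  have hpr : ∀ p : ℕ, p.Prime → p ∣ ∏ j, s j → ∃ j0, p ∣ s j0 := by
    intro p hp h
    obtain ⟨j0, _, hj0⟩ := (hp.prime.dvd_finsetProd_iff _).1 h
    exact ⟨j0, hj0⟩
  have hiff : ∀ p : ℕ, p.Prime → p ∣ ∏ j, s j → ∀ j, p ∣ s j * e j ↔ p ∣ s j := by
    intro p hp h j
    constructor
    · intro hj
      obtain ⟨j0, hj0⟩ := hpr p hp h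
      by_cases hjj : j = j0
      · rw [hjj]
        exact hj0
      · exfalso
        have h1 := hT'.2 j j0 hjj
        have h2 : p ∣ (s j * e j).gcd (s j0 * e j0) := Nat.dvd_gcd hj (hj0.trans (Dvd.intro _ rfl))
        rw [h1.gcd_eq_one] at h2
        exact hp.one_lt.ne' (Nat.dvd_one.1 h2)
    · intro hj
      exact hj.trans (Dvd.intro _ rfl)
  have hNL : ∀ E : Finset ℕ, NL (∏ j, s j) (LSs cls (fun j => s j * e j) E) =
      NL (∏ j, s j) (LSs cls s (E ∩ P)) := by
    intro E
    apply NL_congr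
    intro p hp
    have hpp := Nat.prime_of_mem_primeFactors hp
    have hpd := Nat.dvd_of_mem_primeFactors hp
    funext v w h g
    unfold LSs
    apply propext
    apply forall_congr'
    intro j
    rw [hiff p hpp hpd j]
    apply imp_congr_right
    intro hj
    have hmem : p ∈ P := hp
    have : (p ∈ E ∩ P) ↔ p ∈ E := by
      rw [mem_inter]
      exact ⟨fun h => h.1, fun h => ⟨h, hmem⟩⟩
    simp only [this]
  have hω : (∏ j, e j).primeFactors.card ≤ ∑ j, (e j).primeFactors.card := by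
    have h1 : (∏ j, e j).primeFactors ⊆ univ.biUnion (fun j => (e j).primeFactors) := by
      intro p hp
      rw [mem_biUnion]
      have hpp := Nat.prime_of_mem_primeFactors hp
      obtain ⟨j, _, hj⟩ := (hpp.prime.dvd_finsetProd_iff _).1 (Nat.dvd_of_mem_primeFactors hp)
      exact ⟨j, mem_univ _, Nat.mem_primeFactors.2 ⟨hpp, hj, he0 j⟩⟩
    exact (Finset.card_le_card h1).trans card_biUnion_le
  have hstep : ∀ E : Finset ℕ,
      (NL (∏ j, (s j * e j)) (LSs cls (fun j => s j * e j) E) : ℝ) ≤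
      4 ^ (∑ j, (e j).primeFactors.card) *
        (NL (∏ j, s j) (LSs cls s (E ∩ P)) : ℝ) := by
    intro E
    have h1 := Pool.Agent.W125.RK2.sub4 (∏ j, s j) (∏ j, e j)
      (LSs cls (fun j => s j * e j) E) hme (fun p _ _ => xc_ss cls _ E p)
    rw [hNL E] at h1
    rw [hprod]
    have h2 : (NL ((∏ j, s j) * ∏ j, e j) (LSs cls (fun j => s j * e j) E) : ℝ) ≤
        4 ^ (∏ j, e j).primeFactors.card *
          (NL (∏ j, s j) (LSs cls s (E ∩ P)) : ℝ) := by
      exact_mod_cast h1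
    refine h2.trans ?_
    apply mul_le_mul_of_nonneg_right _ (Nat.cast_nonneg _)
    exact pow_le_pow_right₀ (by norm_num) hω
  have hstep2 : ∀ E : Finset ℕ,
      ∏ _i : ι, (NL (∏ j, (s j * e j)) (LSs cls (fun j => s j * e j) E) : ℝ) ≤
      ((4 : ℝ) ^ Fintype.card ι) ^ (∑ j, (e j).primeFactors.card) *
        ∏ _i : ι, (NL (∏ j, s j) (LSs cls s (E ∩ P)) : ℝ) := by
    intro E
    refine (Finset.prod_le_prod (fun i _ => Nat.cast_nonneg _) (fun i _ => hstep E)).trans ?_
    rw [Finset.prod_mul_distrib, Finset.prod_const, Finset.card_univ, ← pow_mul, ← pow_mul,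
      mul_comm (Fintype.card ι)]
  unfold NS
  rw [hPU, ← hP, card_union_of_disjoint hPQ]
  set N := ∑ j, (e j).primeFactors.card with hN
  calc (1 / 2 : ℝ) ^ (P.card + Q.card) *
      ∑ E ∈ (P ∪ Q).powerset,
        ∏ _i : ι, (NL (∏ j, (s j * e j)) (LSs cls (fun j => s j * e j) E) : ℝ) ≤
      (1 / 2 : ℝ) ^ (P.card + Q.card) * ∑ E ∈ (P ∪ Q).powerset,
        ((4 : ℝ) ^ Fintype.card ι) ^ N *
          ∏ _i : ι, (NL (∏ j, s j) (LSs cls s (E ∩ P)) : ℝ) := by
        apply mul_le_mul_of_nonneg_left _ (by positivity)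
        exact Finset.sum_le_sum fun E _ => hstep2 E
    _ = ((4 : ℝ) ^ Fintype.card ι) ^ N * ((1 / 2 : ℝ) ^ P.card *
        ∑ E ∈ P.powerset, ∏ _i : ι, (NL (∏ j, s j) (LSs cls s E) : ℝ)) := by
        rw [← Finset.mul_sum, sum_inter P Q hPQ
          (fun E => ∏ _i : ι, (NL (∏ j, s j) (LSs cls s E) : ℝ)), pow_add]
        have h2 : (1 / 2 : ℝ) ^ Q.card * 2 ^ Q.card = 1 := by
          rw [← mul_pow]
          norm_num
        linear_combination (((4 : ℝ) ^ Fintype.card ι) ^ N * ((1 / 2 : ℝ) ^ P.card *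
          ∑ E ∈ P.powerset, ∏ _i : ι, (NL (∏ j, s j) (LSs cls s E) : ℝ))) * h2

end Pool.Agent.L7h19.RH
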