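import Mathlib
import Pool.Agent.W571.RT.Rank2
import Pool.Agent.W571.RT.LocM
import Pool.Agent.L7h19.RH.Idx
import Pool.Agent.L7h19.RH.Sub

/-!
# The rank bound at a point, for binary forms of odd degree and a twist
-/

set_option autoImplicit false
set_option linter.unusedSectionVars false

namespace Pool.Agent.L7h19.RH

open Finset Pool.Agent.W262.RK Pool.Agent.W307.RT Pool.Agent.W571.RT

variable {J : Type} [Fintype J] [DecidableEq J]

/-- the classes -/
def c4 (cls : J → Fin 3) (j : J) : Fin 4 := (cls j).castSucc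

lemma c4_ne (cls : J → Fin 3) (j : J) : c4 cls j ≠ 3 := by
  unfold c4
  generalize cls j = c
  revert c
  decide

lemma LL_LS (c : Fin 3) (κ : ℤ) (p : ℕ) (v w h g : Bool) :
    LL c.castSucc (fun _ => κ) false p v w h g = LS c (sg0 p κ) v w h g := by
  unfold LL LS
  fin_cases c
  · rfl
  · rfl
  · rfl

/-- the constant part of the sign -/
def kc (cls : J → Fin 3) (a : Fin 3 → ℤ) (μ : J → ℕ) (α β : J → ℤ) (D : ℤ) (j : J) : ℤ :=
  D * (kapM (c4 cls) a μ α β j * α j)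

lemma sg0_mul {p : ℕ} (hp : p.Prime) {x y : ℤ} (hx : ¬ (p : ℤ) ∣ x) (hy : ¬ (p : ℤ) ∣ y) :
    sg0 p (x * y) = xor (sg0 p x) (sg0 p y) := by
  have h : ∀ x : ℤ, ¬ (p : ℤ) ∣ x → jacobiSym x p = 1 ∨ jacobiSym x p = -1 := by
    intro x hx
    apply jacobiSym.eq_one_or_neg_one
    rw [← Int.isCoprime_iff_gcd_eq_one]
    exact IsCoprime.symm ((Prime.coprime_iff_not_dvd (Nat.prime_iff_prime_int.1 hp)).2 hx)
  unfold sg0
  rw [jacobiSym.mul_left]
  rcases h x hx with h1 | h1 <;> rcases h y hy with h2 | h2 <;> rw [h1, h2] <;> decide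

/-- the symbol -/
lemma symbH {cls : J → Fin 3} {a : Fin 3 → ℤ} {μ : J → ℕ} {α β : J → ℤ} {z : ℕ} (hB : Bg α β z)
    (ha : ∀ p : ℕ, p.Prime → z < p → ∀ k, ¬ (p : ℤ) ∣ a k)
    (hodd : ∀ k, Odd (∑ l ∈ fc (c4 cls) k, μ l)) {p : ℕ}
    (hp : p.Prime) (hz : z < p) {u v : ℤ} (huv : IsCoprime u v) {j : J}
    (hj : (p : ℤ) ∣ fv α β u v j) {D : ℤ} (hD : ¬ (p : ℤ) ∣ D) :
    jacobiSym ((kc cls a μ α β D j * v) * (sgM (c4 cls j) *
      (D * FM (c4 cls) a μ (fv α β u v) (cpM (c4 cls j))))) p = 1 := by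
  have hpi : Prime (p : ℤ) := Nat.prime_iff_prime_int.1 hp
  have h3 := c4_ne cls j
  set k' := cpM (c4 cls j) with hk'
  have hjS : j ∉ fc (c4 cls) k' := by
    intro h
    unfold fc at h
    rw [mem_filter] at h
    exact cpM_ne _ h3 h.2.symm
  have hF : ¬ (p : ℤ) ∣ FM (c4 cls) a μ (fv α β u v) k' := ndM hB ha hp hz huv hj hjS
  have hα := (hB.2 p hp hz).1 j
  have hv := v_not_dvd hB hp hz huv hj
  obtain ⟨m, hm⟩ := hodd k'
  set R : ℤ := a k' * ∏ l ∈ fc (c4 cls) k', Res α β j l ^ μ l with hR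
  set F : ℤ := FM (c4 cls) a μ (fv α β u v) k' with hFd
  have h1 : (kc cls a μ α β D j * v) * (sgM (c4 cls j) * (D * F)) =
      D ^ 2 * ((R * v * α j) * F) := by
    unfold kc kapM
    rw [← hk', ← hR]
    linear_combination (D ^ 2 * R * F * v * α j) * sgM_sq (c4 cls j)
  have h2 : (v ^ m) ^ 2 * (R * v) ≡ (α j ^ m) ^ 2 * (α j * F) [ZMOD p] := by
    have := (prodR (μ := μ) hj (fc (c4 cls) k')).mul_left (a k')
    rw [hm] at this
    have e1 : a k' * (v ^ (2 * m + 1) * ∏ l ∈ fc (c4 cls) k', Res α β j l ^ μ l) =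
        (v ^ m) ^ 2 * (R * v) := by
      rw [hR]; ring
    have e2 : a k' * (α j ^ (2 * m + 1) * ∏ l ∈ fc (c4 cls) k', fv α β u v l ^ μ l) =
        (α j ^ m) ^ 2 * (α j * F) := by
      rw [hFd]; unfold FM; ring
    rwa [e1, e2] at this
  have h3' : ((R * v * α j) * F) * (v ^ m) ^ 2 ≡ ((α j ^ m) * (α j * F)) ^ 2 [ZMOD p] := by
    have := h2.mul_right (α j * F)
    have e1 : (v ^ m) ^ 2 * (R * v) * (α j * F) = ((R * v * α j) * F) * (v ^ m) ^ 2 := by ring
    have e2 : (α j ^ m) ^ 2 * (α j * F) * (α j * F) = ((α j ^ m) * (α j * F)) ^ 2 := by ring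
    rwa [e1, e2] at this
  have h4 : jacobiSym (((R * v * α j) * F) * (v ^ m) ^ 2) p = 1 := by
    rw [jacobiSym.mod_left' h3']
    apply jac_sq hp
    intro h
    rcases hpi.dvd_or_dvd h with h5 | h5
    · exact hα (hpi.dvd_of_dvd_pow h5)
    · rcases hpi.dvd_or_dvd h5 with h6 | h6
      · exact hα h6
      · exact hF h6
  rw [jacobiSym.mul_left, jac_sq hp (fun h => hv (hpi.dvd_of_dvd_pow h)), mul_one] at h4
  rw [h1, jacobiSym.mul_left, jac_sq hp hD, h4, one_mul]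

lemma val_mulD {p : ℕ} (hp : p.Prime) {D x : ℤ} (hD0 : D ≠ 0) (hD : ¬ (p : ℤ) ∣ D) (hx : x ≠ 0) :
    padicValInt p (D * x) = padicValInt p x := by
  have : Fact p.Prime := ⟨hp⟩
  rw [padicValInt.mul hD0 hx, padicValInt.eq_zero_of_not_dvd hD, zero_add]

/-- the local hypotheses hold -/
lemma locHH {cls : J → Fin 3} {a : Fin 3 → ℤ} {μ : J → ℕ} {α β : J → ℤ} {z : ℕ} (hB : Bg α β z)
    (ha : ∀ p : ℕ, p.Prime → z < p → ∀ k, ¬ (p : ℤ) ∣ a k)
    (hodd : ∀ k, Odd (∑ l ∈ fc (c4 cls) k, μ l)) (hμ : ∀ j, Odd (μ j))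
    {p : ℕ} (hp : p.Prime) (hz : z < p) {u v : ℤ} (huv : IsCoprime u v) {j : J}
    (hF : FM (c4 cls) a μ (fv α β u v) 0 - FM (c4 cls) a μ (fv α β u v) 1 =
      FM (c4 cls) a μ (fv α β u v) 2)
    (hF0 : ∀ k, FM (c4 cls) a μ (fv α β u v) k ≠ 0)
    (h0 : fv α β u v j ≠ 0)
    (hj : (p : ℤ) ∣ fv α β u v j) (hj2 : ¬ (p : ℤ) ^ 2 ∣ fv α β u v j)
    {D : ℤ} (hD0 : D ≠ 0) (hD : ¬ (p : ℤ) ∣ D) :
    LocM (c4 cls j) (kc cls a μ α β D j * v) p (D * FM (c4 cls) a μ (fv α β u v) 0)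
      (D * FM (c4 cls) a μ (fv α β u v) 1) := by
  have hpi : Prime (p : ℤ) := Nat.prime_iff_prime_int.1 hp
  have h3 := c4_ne cls j
  have hmem : ∀ k : Fin 3, j ∈ fc (c4 cls) k ↔ c4 cls j = k.castSucc := fun k => by
    unfold fc
    rw [mem_filter]
    exact ⟨fun h => h.2, fun h => ⟨mem_univ _, h⟩⟩
  have hn : ∀ k, j ∉ fc (c4 cls) k → ¬ (p : ℤ) ∣ D * FM (c4 cls) a μ (fv α β u v) k := by
    intro k hk h
    rcases hpi.dvd_or_dvd h with h1 | h1
    · exact hD h1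
    · exact ndM hB ha hp hz huv hj hk h1
  have hs := symbH (cls := cls) (μ := μ) hB ha hodd hp hz huv hj hD
  have hlast : ∀ k, j ∈ fc (c4 cls) k →
      Odd (padicValInt p (D * FM (c4 cls) a μ (fv α β u v) k)) := by
    intro k hk
    rw [val_mulD hp hD0 hD (hF0 k), valF hB ha hp hz huv h0 hj hj2 hk]
    exact hμ j
  have hdv : ∀ k, j ∈ fc (c4 cls) k → (p : ℤ) ∣ D * FM (c4 cls) a μ (fv α β u v) k := by
    intro k hk
    unfold FM
    rw [← mul_prod_erase _ _ hk]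
    apply Dvd.dvd.mul_left
    apply Dvd.dvd.mul_left
    apply Dvd.dvd.mul_right
    exact dvd_pow hj (hμ j).pos.ne'
  have hcase : c4 cls j = 0 ∨ c4 cls j = 1 ∨ c4 cls j = 2 ∨ c4 cls j = 3 := by
    generalize c4 cls j = c
    revert c
    decide
  unfold LocM
  rcases hcase with h | h | h | h
  · rw [if_pos h]
    have hm0 := (hmem 0).2 (by rw [h]; rfl)
    have h2 := hn 1 (fun h3 => by
      have h4 := (hmem 1).1 h3
      rw [h] at h4; exact absurd h4 (by decide))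
    rw [h, show sgM 0 = -1 from rfl, show cpM 0 = 1 from rfl, neg_one_mul] at hs
    exact ⟨hdv 0 hm0, h2, hs, Or.inl (hlast 0 hm0)⟩
  · rw [if_neg (by rw [h]; decide), if_pos h]
    have hm0 := (hmem 1).2 (by rw [h]; rfl)
    have h2 := hn 0 (fun h3 => by
      have h4 := (hmem 0).1 h3
      rw [h] at h4; exact absurd h4 (by decide))
    rw [h, show sgM 1 = -1 from rfl, show cpM 1 = 0 from rfl, neg_one_mul] at hs
    exact ⟨hdv 1 hm0, h2, hs, Or.inl (hlast 1 hm0)⟩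
  · rw [if_neg (by rw [h]; decide), if_neg (by rw [h]; decide)]
    have hm0 := (hmem 2).2 (by rw [h]; rfl)
    have h2 := hn 0 (fun h3 => by
      have h4 := (hmem 0).1 h3
      rw [h] at h4; exact absurd h4 (by decide))
    rw [h, show sgM 2 = 1 from rfl, show cpM 2 = 0 from rfl, one_mul] at hs
    rw [← mul_sub, hF]
    exact ⟨hdv 2 hm0, h2, hs, Or.inl (hlast 2 hm0)⟩
  · exact absurd h h3

/-- the signs at a point -/
noncomputable def ES (cls : J → Fin 3) (a : Fin 3 → ℤ) (μ : J → ℕ) (α β : J → ℤ) (D : ℤ)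
    (s : J → ℕ) (w : ℤ) : Finset ℕ := by
  classical
  exact (Q0 s).filter (fun p => ∃ j, p ∣ s j ∧
    xor (sg0 p (kc cls a μ α β D j)) (sg0 p w) = true)

/-- the rank bound -/
theorem rankh (cls : J → Fin 3) (a : Fin 3 → ℤ)
    (μ : J → ℕ) (α β : J → ℤ) (z : ℕ) (ha0 : ∀ k, a k ≠ 0) (hμ : ∀ j, Odd (μ j))
    (hB : Bg α β z) (ha : ∀ p : ℕ, p.Prime → z < p → ∀ k, ¬ (p : ℤ) ∣ a k)
    (hodd : ∀ k, Odd (∑ l ∈ fc (c4 cls) k, μ l)) (hκ0 : ∀ j, kapM (c4 cls) a μ α β j ≠ 0)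
    (hκ : ∀ j, (kapM (c4 cls) a μ α β j).natAbs ≤ z)
    (hFF : ∀ u v : ℤ, FM (c4 cls) a μ (fv α β u v) 0 - FM (c4 cls) a μ (fv α β u v) 1 =
      FM (c4 cls) a μ (fv α β u v) 2)
    (X y k : ℕ) (u v : ℤ) (huv : IsCoprime u v) (h0 : ∀ j, fv α β u v j ≠ 0)
    (hb : ∀ j, (fv α β u v j).natAbs ≤ X ^ 2) (hX : 1 ≤ X) (hy : 1 ≤ y) (hk : X < (y + 1) ^ k)
    (D : ℤ) (hD0 : D ≠ 0) :
    2 ^ Module.finrank ℤ
      (EAB (D * FM (c4 cls) a μ (fv α β u v) 0)
        (D * FM (c4 cls) a μ (fv α β u v) 1)).toAffine.Point ≤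
      64 ^ D.natAbs.primeFactors.card * (4 ^ (z + 2) * (16 ^ Fintype.card J) ^ k *
        4 ^ (∑ j, (S2 z y (fv α β u v) j).primeFactors.card) *
        NL (∏ j, S1 z y (fv α β u v) j)
          (LSs cls (S1 z y (fv α β u v)) (ES cls a μ α β D (S1 z y (fv α β u v)) v))) := by
  classical
  have hF := hFF u v
  set f := fv α β u v with hf
  have hFne : ∀ k, FM (c4 cls) a μ f k ≠ 0 := fun k =>
    mul_ne_zero (ha0 k) (prod_ne_zero_iff.2 fun l _ => pow_ne_zero _ (h0 l))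
  have hz2 : 2 ≤ z := by have := hB.1; omega
  set s := S1 z y f with hs
  set E := ES cls a μ α β D s v with hE
  have hmem : s ∈ Tup J z y := S1_mem (fun p hp hzp j l hjl h =>
    fv_not_dvd hB hp hzp huv hjl h.1 h.2)
  have hmd : ∏ j, s j ∣ PP z y := Tup_prod_dvd hmem
  have hPSof : ∀ p : ℕ, p.Prime → p ∣ ∏ j, s j → p ∈ PS z y := fun p hp h =>
    (prime_dvd_PP hp).1 (h.trans hmd)
  have hnκ : ∀ p : ℕ, p.Prime → p ∣ ∏ j, s j → ∀ j, ¬ (p : ℤ) ∣ kapM (c4 cls) a μ α β j := by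
    intro p hp h j hd
    have h1 := (mem_PS.1 (hPSof p hp h)).1.1
    have h2 := Nat.le_of_dvd (Int.natAbs_pos.2 (hκ0 j)) (Int.natCast_dvd.1 hd)
    have h3 := hκ j
    omega
  have hodd2 : ∀ p : ℕ, p.Prime → p ∣ ∏ j, s j → p ≠ 2 := by
    intro p hp h
    have h1 := (mem_PS.1 (hPSof p hp h)).1.1
    omega
  have hdesc : DESC4 := Pool.Agent.W214.RK2.desc4
  have hsq : Squarefree (∏ j, s j) := (PP_squarefree z y).squarefree_of_dvd hmd
  set L : ℕ → Bool → Bool → Bool → Bool → Prop := fun p v w h g =>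
    ¬ (p : ℤ) ∣ D → LSs cls s E p v w h g with hL
  have hd := hdesc (∏ j, s j) L
    (D * FM (c4 cls) a μ f 0) (D * FM (c4 cls) a μ f 1) (mul_ne_zero hD0 (hFne 0))
    (mul_ne_zero hD0 (hFne 1))
    (fun h => hFne 2 (by rw [← hF, mul_left_cancel₀ hD0 h, sub_self]))
    (by
      rw [← Nat.not_even_iff_odd, even_iff_two_dvd]
      intro h
      exact hodd2 2 Nat.prime_two h rfl)
    hsq
    (fun p hp hpd => ⟨fun _ => (xc_ss cls s E p).1,
      fun a1 b1 c1 d1 a2 b2 c2 d2 e1 e2 hpD =>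
        (xc_ss cls s E p).2 a1 b1 c1 d1 a2 b2 c2 d2 (e1 hpD) (e2 hpD)⟩)
    (fun p hp hpd x x' hx' hcurve e1 e2 he1 he2 hsq1 hsq2 hpD j hj => by
      have hpp : p.Prime := Fact.out
      have hpi : Prime (p : ℤ) := Nat.prime_iff_prime_int.1 hpp
      have hjs := (S1_dvd_iff hpp).1 hj
      have hzp := (mem_PS.1 hjs.1).1.1
      have hkv : ¬ (p : ℤ) ∣ v := v_not_dvd hB hpp hzp huv hjs.2.1
      have hkc : ¬ (p : ℤ) ∣ kc cls a μ α β D j := by
        intro h
        rcases hpi.dvd_or_dvd h with h1 | h1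
        · exact hpD h1
        · rcases hpi.dvd_or_dvd h1 with h2 | h2
          · exact hnκ p hpp hpd j h2
          · exact (hB.2 p hpp hzp).1 j h2
      have hfin := locm (c4 cls j) (kc cls a μ α β D j * v) p (D * FM (c4 cls) a μ f 0)
        (D * FM (c4 cls) a μ f 1) (c4_ne cls j)
        (hodd2 p hpp hpd) (fun h => (hpi.dvd_or_dvd h).elim hkc hkv)
        (mul_ne_zero hD0 (hFne 0)) (mul_ne_zero hD0 (hFne 1))
        (fun h => hFne 2 (by rw [← hF, mul_left_cancel₀ hD0 h, sub_self]))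
        (locHH hB ha hodd hμ hpp hzp huv hF hFne (h0 j) hjs.2.1 hjs.2.2 hD0 hpD)
          x x' hx' hcurve e1 e2 he1 he2 hsq1 hsq2
      unfold c4 at hfin
      rw [LL_LS, sg0_mul hpp hkc hkv] at hfin
      have hdec : decide (p ∈ E) = xor (sg0 p (kc cls a μ α β D j)) (sg0 p v) := by
        rw [Bool.eq_iff_iff, decide_eq_true_iff, hE]
        unfold ES
        rw [mem_filter]
        constructor
        · rintro ⟨_, l, hl, hl2⟩
          have hjl : j = l := by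
            by_contra hne
            have hls := (S1_dvd_iff hpp).1 hl
            exact fv_not_dvd hB hpp hzp huv hne hjs.2.1 hls.2.1
          rw [hjl]
          exact hl2
        · intro h
          exact ⟨Nat.mem_primeFactors.2 ⟨hpp, hpd, hsq.ne_zero⟩, j, hj, h⟩
      rw [hdec]
      exact hfin)
  set PD := (∏ j, s j).primeFactors.filter (fun p : ℕ => (p : ℤ) ∣ D) with hPD
  have hidx := index (∏ j, s j) hsq PD L (LSs cls s E) (by
    intro p hp hpP
    have hpD : ¬ (p : ℤ) ∣ D := fun h => hpP (mem_filter.2 ⟨hp, h⟩)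
    funext v w h g
    exact propext ⟨fun h => h hpD, fun h _ => h⟩) (fun p _ => xc_ss cls s E p)
  have hPDc : PD.card ≤ D.natAbs.primeFactors.card := by
    apply card_le_card
    intro p hp
    rw [hPD, mem_filter] at hp
    rw [Nat.mem_primeFactors]
    exact ⟨Nat.prime_of_mem_primeFactors hp.1, Int.natCast_dvd.1 hp.2, Int.natAbs_ne_zero.2 hD0⟩
  have hbad : ((2 * (D * FM (c4 cls) a μ f 0) * (D * FM (c4 cls) a μ f 1) *
      (D * FM (c4 cls) a μ f 0 - D * FM (c4 cls) a μ f 1)).natAbs.primeFactors.filter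
        (fun q => ¬ q ∣ ∏ j, s j)).card ≤
      D.natAbs.primeFactors.card + (z + Fintype.card J * (2 * k) +
        ∑ j, (S2 z y f j).primeFactors.card) := by
    have hc := badM (cls := c4 cls) (μ := μ) (y := y) hB ha hX hy h0 hb hk
    rw [← hf, ← hs] at hc
    refine le_trans (card_le_card ?_) ((card_union_le _ _).trans (add_le_add_right hc _))
    intro q hq
    rw [mem_filter] at hq
    have hqp := Nat.prime_of_mem_primeFactors hq.1
    have hqd : (q : ℤ) ∣ (2 * (D * FM (c4 cls) a μ f 0) * (D * FM (c4 cls) a μ f 1) *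
      (D * FM (c4 cls) a μ f 0 - D * FM (c4 cls) a μ f 1)) :=
      Int.natCast_dvd.2 (Nat.dvd_of_mem_primeFactors hq.1)
    have hqi : Prime (q : ℤ) := Nat.prime_iff_prime_int.1 hqp
    have e1 : (2 * (D * FM (c4 cls) a μ f 0) * (D * FM (c4 cls) a μ f 1) *
      (D * FM (c4 cls) a μ f 0 - D * FM (c4 cls) a μ f 1)) =
        D ^ 3 * (2 * FM (c4 cls) a μ f 0 * FM (c4 cls) a μ f 1 * FM (c4 cls) a μ f 2) := by
      rw [← hF]; ring
    rw [e1] at hqd
    rw [mem_union]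
    rcases hqi.dvd_or_dvd hqd with h1 | h1
    · left
      rw [Nat.mem_primeFactors]
      exact ⟨hqp, Int.natCast_dvd.1 (hqi.dvd_of_dvd_pow h1), Int.natAbs_ne_zero.2 hD0⟩
    · right
      rw [mem_filter, Nat.mem_primeFactors]
      refine ⟨⟨hqp, Int.natCast_dvd.1 h1, Int.natAbs_ne_zero.2 ?_⟩, hq.2⟩
      exact mul_ne_zero (mul_ne_zero (mul_ne_zero (by norm_num) (hFne 0)) (hFne 1)) (hFne 2)
  refine hd.trans ?_
  calc 4 ^ (((2 * (D * FM (c4 cls) a μ f 0) * (D * FM (c4 cls) a μ f 1) *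
      (D * FM (c4 cls) a μ f 0 - D * FM (c4 cls) a μ f 1)).natAbs.primeFactors.filter
        (fun q => ¬ q ∣ ∏ j, s j)).card + 2) * NL (∏ j, s j) L
      ≤ 4 ^ (D.natAbs.primeFactors.card + ((z + 2) + (Fintype.card J * (2 * k)) +
          ∑ j, (S2 z y f j).primeFactors.card)) *
          (16 ^ D.natAbs.primeFactors.card * NL (∏ j, s j) (LSs cls s E)) := by
        apply Nat.mul_le_mul
        · exact Nat.pow_le_pow_right (by norm_num) (by omega)
        · exact hidx.trans (Nat.mul_le_mul_right _ (Nat.pow_le_pow_right (by norm_num) hPDc))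
    _ = _ := by
        have e2 : (64 : ℕ) ^ D.natAbs.primeFactors.card =
            4 ^ D.natAbs.primeFactors.card * 16 ^ D.natAbs.primeFactors.card := by
          rw [← mul_pow]
          norm_num
        have e3 : ((16 : ℕ) ^ Fintype.card J) ^ k = 4 ^ (Fintype.card J * (2 * k)) := by
          rw [← pow_mul, show (16 : ℕ) = 4 ^ 2 by norm_num, ← pow_mul]
          congr 1
          ring
        rw [e2, e3, pow_add, pow_add, pow_add]
        ring

end Pool.Agent.L7h19.RH
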