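import Mathlib
import Pool.Agent.L7h19.RJ.Ant
import Pool.Agent.L7h19.RH.Rank
import Pool.Agent.L7h19.RH.Maj
import Pool.Agent.L7h19.RH.Cnts
import Pool.Agent.W340.RT.SVR2
import Pool.Agent.W230.RT.Avg2
import Pool.Agent.W591.RK2.RVRU
import Pool.Agent.W358.RK2.GR

/-!
# The second moment over coprime pairs, uniformly in the twist
-/

set_option autoImplicit false
set_option linter.unusedSectionVars false

namespace Pool.Agent.L7h19.RH

open Finset Pool.Agent.W262.RK Pool.Agent.W307.RT Pool.Agent.W571.RT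

variable {J : Type} [Fintype J] [DecidableEq J]

/-- the crude bound of the rank -/
lemma crude {A B D : ℤ} (hA : A ≠ 0) (hB : B ≠ 0) (hAB : A ≠ B) (hD : D ≠ 0) :
    2 ^ Module.finrank ℤ (EAB (D * A) (D * B)).toAffine.Point ≤
      4 ^ (D.natAbs.primeFactors.card + ((2 * A * B * (A - B)).natAbs.primeFactors.card + 2)) := by
  classical
  have hdesc : DESC4 := Pool.Agent.W214.RK2.desc4
  obtain ⟨L, hL⟩ : ∃ L : ℕ → Bool → Bool → Bool → Bool → Prop, ∀ p v w h g, L p v w h g :=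
    ⟨fun _ _ _ _ _ => True, fun _ _ _ _ _ => trivial⟩
  have h := hdesc 1 L (D * A) (D * B) (mul_ne_zero hD hA)
    (mul_ne_zero hD hB) (fun h => hAB (mul_left_cancel₀ hD h)) odd_one squarefree_one
    (fun _ _ _ => ⟨hL _ _ _ _ _, fun _ _ _ _ _ _ _ _ _ _ => hL _ _ _ _ _⟩)
    (fun _ _ _ _ _ _ _ _ _ _ _ _ _ => hL _ _ _ _ _)
  refine h.trans ?_
  have h1 : NL 1 L ≤ 1 := by
    unfold NL
    refine (card_filter_le _ _).trans ?_
    simp
  have h2 : ((2 * (D * A) * (D * B) * (D * A - D * B)).natAbs.primeFactors.filter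
      (fun q => ¬ q ∣ 1)).card ≤
      D.natAbs.primeFactors.card + (2 * A * B * (A - B)).natAbs.primeFactors.card := by
    refine le_trans (card_le_card ?_) (card_union_le _ _)
    intro q hq
    rw [mem_filter] at hq
    have hqp := Nat.prime_of_mem_primeFactors hq.1
    have hqd : (q : ℤ) ∣ (2 * (D * A) * (D * B) * (D * A - D * B)) :=
      Int.natCast_dvd.2 (Nat.dvd_of_mem_primeFactors hq.1)
    have hqi : Prime (q : ℤ) := Nat.prime_iff_prime_int.1 hqp
    have e1 : (2 * (D * A) * (D * B) * (D * A - D * B)) = D ^ 3 * (2 * A * B * (A - B)) := by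
      ring
    rw [e1] at hqd
    rw [mem_union, Nat.mem_primeFactors, Nat.mem_primeFactors]
    rcases hqi.dvd_or_dvd hqd with h1 | h1
    · left
      exact ⟨hqp, Int.natCast_dvd.1 (hqi.dvd_of_dvd_pow h1), Int.natAbs_ne_zero.2 hD⟩
    · right
      refine ⟨hqp, Int.natCast_dvd.1 h1, Int.natAbs_ne_zero.2 ?_⟩
      exact mul_ne_zero (mul_ne_zero (mul_ne_zero (by norm_num) hA) hB) (sub_ne_zero.2 hAB)
  calc 4 ^ (((2 * (D * A) * (D * B) * (D * A - D * B)).natAbs.primeFactors.filter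
      (fun q => ¬ q ∣ 1)).card + 2) * NL 1 L
      ≤ 4 ^ (D.natAbs.primeFactors.card + ((2 * A * B * (A - B)).natAbs.primeFactors.card + 2)) *
          1 := Nat.mul_le_mul (Nat.pow_le_pow_right (by norm_num) (by omega)) h1
    _ = _ := mul_one _

lemma four_pow (n : ℕ) : (4 : ℝ) ^ n = ((2 : ℝ) ^ n) ^ 2 := by
  rw [← pow_mul, mul_comm n 2, pow_mul]
  norm_num

theorem avgh (cls : J → Fin 3) (n : ℕ)
    (hn : ∀ c : Fin 3, (univ.filter (fun j => cls j = c)).card = n) (a : Fin 3 → ℤ)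
    (μ : J → ℕ) (α β : J → ℤ) (ha : ∀ k, a k ≠ 0) (hμ : ∀ j, Odd (μ j)) (hα : ∀ j, α j ≠ 0)
    (hR : ∀ j l, j ≠ l → Res α β j l ≠ 0) (hodd : ∀ k, Odd (∑ l ∈ fc (c4 cls) k, μ l))
    (hF : ∀ u v : ℤ, FM (c4 cls) a μ (fv α β u v) 0 - FM (c4 cls) a μ (fv α β u v) 1 =
      FM (c4 cls) a μ (fv α β u v) 2) :
    ∃ C : ℝ, 0 ≤ C ∧ ∀ D : ℤ, D ≠ 0 → ∀ X : ℕ, 1 ≤ X →
      ∑ t ∈ (Icc 1 X ×ˢ Icc 1 X).filter (fun t : ℕ × ℕ =>
        t.1.Coprime t.2 ∧ ∀ j, fv α β (t.1 : ℤ) (t.2 : ℤ) j ≠ 0),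
      (4 : ℝ) ^ Module.finrank ℤ (EAB (D * FM (c4 cls) a μ (fv α β (t.1 : ℤ) (t.2 : ℤ)) 0)
        (D * FM (c4 cls) a μ (fv α β (t.1 : ℤ) (t.2 : ℤ)) 1)).toAffine.Point ≤
      C * (4096 ^ D.natAbs.primeFactors.card * X ^ 2) := by
  classical
  set N := Fintype.card J with hN
  obtain ⟨z0, hz0⟩ := majs cls n hn N
  set z : ℕ := z0 + (2 * N + 2) + ∑ k, (a k).natAbs + ∑ j, (α j).natAbs +
    ∑ j, ∑ l, (Res α β j l).natAbs + ∑ j, (kapM (c4 cls) a μ α β j).natAbs with hz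
  have hB : Bg α β z := by
    refine ⟨by omega, fun p hp hzp => ⟨fun j h => ?_, fun j l hjl h => ?_⟩⟩
    · have h1 := Nat.le_of_dvd (Int.natAbs_pos.2 (hα j)) (Int.natCast_dvd.1 h)
      have h2 := single_le_sum (f := fun j => (α j).natAbs) (fun _ _ => Nat.zero_le _) (mem_univ j)
      omega
    · have h1 := Nat.le_of_dvd (Int.natAbs_pos.2 (hR j l hjl)) (Int.natCast_dvd.1 h)
      have h2 := single_le_sum (f := fun l => (Res α β j l).natAbs) (fun _ _ => Nat.zero_le _)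
        (mem_univ l)
      have h3 := single_le_sum (f := fun j => ∑ l, (Res α β j l).natAbs) (fun _ _ => Nat.zero_le _)
        (mem_univ j)
      omega
  have hpa : ∀ p : ℕ, p.Prime → z < p → ∀ k, ¬ (p : ℤ) ∣ a k := by
    intro p hp hzp k h
    have h1 := Nat.le_of_dvd (Int.natAbs_pos.2 (ha k)) (Int.natCast_dvd.1 h)
    have h2 := single_le_sum (f := fun k => (a k).natAbs) (fun _ _ => Nat.zero_le _) (mem_univ k)
    omega
  have hκ0 : ∀ j, kapM (c4 cls) a μ α β j ≠ 0 := Pool.Agent.W230.RT.kapM_ne ha hR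
  have hκz : ∀ j, (kapM (c4 cls) a μ α β j).natAbs ≤ z := by
    intro j
    have h2 := single_le_sum (f := fun j => (kapM (c4 cls) a μ α β j).natAbs)
      (fun _ _ => Nat.zero_le _) (mem_univ j)
    omega
  have hz2 : 2 ≤ z := by omega
  obtain ⟨C', hC'⟩ := hz0 z (by omega)
  obtain ⟨C, K, y0, hC0, hK1, hcn⟩ := cnts Pool.Agent.W340.RT.SVR2.svr2 α β z hB
  set y1 : ℕ := y0 + ∑ j, ((α j).natAbs + (β j).natAbs) + 1 with hy1
  obtain ⟨X0, B2, hB2, key⟩ := Pool.Agent.L7h19.RJ.ant_u Pool.Agent.W591.RK2.ru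
    Pool.Agent.W358.RK2.gr (b := 16) (by norm_num) J z (NS (Fin 2) cls) (C * 16 ^ (z + 2)) C'
    (256 ^ N) K y1 N (by omega) (NS_nonneg cls) (by positivity) (one_le_pow₀ (by norm_num))
    (fun y _ s e hse => by
      have := subs (ι := Fin 2) cls s e hse
      rw [Fintype.card_fin] at this
      norm_num at this
      exact this)
    hC'
  set F : ℕ × ℕ → Fin 3 → ℤ := fun t => FM (c4 cls) a μ (fv α β (t.1 : ℤ) (t.2 : ℤ)) with hFd
  set G0 : ℕ × ℕ → ℝ := fun t =>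
    16 ^ ((2 * F t 0 * F t 1 * (F t 0 - F t 1)).natAbs.primeFactors.card + 2) with hG0
  set C0 : ℝ := ∑ t ∈ Icc 1 X0 ×ˢ Icc 1 X0, G0 t with hC0d
  have hC00 : 0 ≤ C0 := sum_nonneg fun t _ => by positivity
  refine ⟨B2 + C0, by positivity, fun D hD X hX => ?_⟩
  have hX1' : (1 : ℝ) ≤ X := by exact_mod_cast hX
  have hω1 : (1 : ℝ) ≤ 4096 ^ D.natAbs.primeFactors.card := one_le_pow₀ (by norm_num)
  rcases Nat.lt_or_ge X X0 with hXX | hXX
  · -- small `X`
    have h1 : ∀ t ∈ (Icc 1 X ×ˢ Icc 1 X).filter (fun t : ℕ × ℕ =>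
        t.1.Coprime t.2 ∧ ∀ j, fv α β (t.1 : ℤ) (t.2 : ℤ) j ≠ 0),
        (4 : ℝ) ^ Module.finrank ℤ (EAB (D * FM (c4 cls) a μ (fv α β (t.1 : ℤ) (t.2 : ℤ)) 0)
          (D * FM (c4 cls) a μ (fv α β (t.1 : ℤ) (t.2 : ℤ)) 1)).toAffine.Point ≤
        4096 ^ D.natAbs.primeFactors.card * G0 t := by
      intro t ht
      rw [mem_filter] at ht
      have hFne : ∀ k, F t k ≠ 0 := fun k =>
        mul_ne_zero (ha k) (prod_ne_zero_iff.2 fun l _ => pow_ne_zero _ (ht.2.2 l))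
      have h2 := crude (D := D) (hFne 0) (hFne 1)
        (fun h => hFne 2 (by
          have := hF (t.1 : ℤ) (t.2 : ℤ)
          show FM (c4 cls) a μ (fv α β (t.1 : ℤ) (t.2 : ℤ)) 2 = 0
          rw [← this]
          exact sub_eq_zero.2 h)) hD
      have h3 : (2 : ℝ) ^ Module.finrank ℤ (EAB (D * F t 0) (D * F t 1)).toAffine.Point ≤
          4 ^ (D.natAbs.primeFactors.card +
            ((2 * F t 0 * F t 1 * (F t 0 - F t 1)).natAbs.primeFactors.card + 2)) := by
        exact_mod_cast h2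
      rw [four_pow]
      calc ((2 : ℝ) ^ Module.finrank ℤ (EAB (D * F t 0) (D * F t 1)).toAffine.Point) ^ 2
          ≤ (4 ^ (D.natAbs.primeFactors.card +
            ((2 * F t 0 * F t 1 * (F t 0 - F t 1)).natAbs.primeFactors.card + 2))) ^ 2 :=
            pow_le_pow_left₀ (by positivity) h3 2
        _ = 16 ^ D.natAbs.primeFactors.card * G0 t := by
            rw [hG0, ← pow_mul, mul_comm _ 2, pow_mul]
            norm_num
            rw [pow_add]
        _ ≤ _ := by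
            apply mul_le_mul_of_nonneg_right _ (by positivity)
            exact pow_le_pow_left₀ (by norm_num) (by norm_num) _
    refine (sum_le_sum h1).trans ?_
    rw [← mul_sum]
    have h4 : ∑ t ∈ (Icc 1 X ×ˢ Icc 1 X).filter (fun t : ℕ × ℕ =>
        t.1.Coprime t.2 ∧ ∀ j, fv α β (t.1 : ℤ) (t.2 : ℤ) j ≠ 0), G0 t ≤ C0 := by
      apply sum_le_sum_of_subset_of_nonneg
      · intro t ht
        rw [mem_filter, mem_product, mem_Icc, mem_Icc] at ht
        rw [mem_product, mem_Icc, mem_Icc]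
        omega
      · intro t _ _
        positivity
    have h5 : C0 ≤ (B2 + C0) * X ^ 2 := by
      have : (1 : ℝ) ≤ (X : ℝ) ^ 2 := one_le_pow₀ hX1'
      nlinarith
    calc (4096 : ℝ) ^ D.natAbs.primeFactors.card * ∑ t ∈ (Icc 1 X ×ˢ Icc 1 X).filter
          (fun t : ℕ × ℕ => t.1.Coprime t.2 ∧ ∀ j, fv α β (t.1 : ℤ) (t.2 : ℤ) j ≠ 0), G0 t
        ≤ 4096 ^ D.natAbs.primeFactors.card * ((B2 + C0) * X ^ 2) :=
          mul_le_mul_of_nonneg_left (h4.trans h5) (by positivity)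
      _ = _ := by ring
  have hmain := key (ℕ × ℕ) X ((Icc 1 X ×ˢ Icc 1 X).filter (fun t : ℕ × ℕ =>
      t.1.Coprime t.2 ∧ ∀ j, fv α β (t.1 : ℤ) (t.2 : ℤ) j ≠ 0))
    (4096 ^ D.natAbs.primeFactors.card * (X : ℝ) ^ 2)
    (fun t => fv α β (t.1 : ℤ) (t.2 : ℤ))
    (fun t => (4 : ℝ) ^ Module.finrank ℤ
      (EAB (D * FM (c4 cls) a μ (fv α β (t.1 : ℤ) (t.2 : ℤ)) 0)
      (D * FM (c4 cls) a μ (fv α β (t.1 : ℤ) (t.2 : ℤ)) 1)).toAffine.Point)
    hXX (by positivity) (fun ω hω => by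
      rw [mem_filter] at hω
      exact Pool.Agent.W230.RT.gd_fv hB hω.2.1 hω.2.2) (fun t => by positivity) ?_
  · refine hmain.trans ?_
    apply mul_le_mul_of_nonneg_right _ (by positivity)
    linarith
  intro y Y k hy0 hzy hyK hk s hs v hv u hu h8 T' hT' hT2
  have hy00 : y0 ≤ y := by omega
  have hyX : y ≤ X := by
    rcases Nat.eq_zero_or_pos y with h | h
    · omega
    · exact le_trans (Nat.le_self_pow (by omega) y) hyK
  have hX1 : 1 ≤ X := by omega
  set W : ℝ := 4096 ^ D.natAbs.primeFactors.card * (16 ^ (z + 2) * (256 ^ N) ^ k *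
    16 ^ (∑ j, (v j).primeFactors.card)) with hW
  have hW0 : 0 ≤ W := by positivity
  set g : Finset ℕ → ℝ := fun E => (NL (∏ j, s j) (LSs cls s E) : ℝ) with hg
  have hg0 : ∀ E, 0 ≤ g E := fun E => Nat.cast_nonneg _
  set Et : ℕ × ℕ → Finset ℕ := fun t => ES cls a μ α β D s (t.2 : ℤ) with hEt
  have h1 : ∀ t ∈ T', (4 : ℝ) ^ Module.finrank ℤ
      (EAB (D * FM (c4 cls) a μ (fv α β (t.1 : ℤ) (t.2 : ℤ)) 0)
        (D * FM (c4 cls) a μ (fv α β (t.1 : ℤ) (t.2 : ℤ)) 1)).toAffine.Point ≤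
      W * (g (Et t)) ^ 2 := by
    intro t ht
    have ht1 := hT' ht
    rw [mem_filter, mem_product, mem_Icc, mem_Icc] at ht1
    obtain ⟨hts, htv, _⟩ := hT2 t ht
    have hr := rankh cls a μ α β z ha hμ hB hpa hodd hκ0 hκz hF X y k (t.1 : ℤ)
      (t.2 : ℤ) (Nat.isCoprime_iff_coprime.2 ht1.2.1) ht1.2.2 (fun j => by
        unfold fv
        have h3 := Int.natAbs_add_le (α j * (t.1 : ℤ)) (β j * (t.2 : ℤ))
        rw [Int.natAbs_mul, Int.natAbs_mul, Int.natAbs_natCast, Int.natAbs_natCast] at h3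
        have h4 := single_le_sum (f := fun j => (α j).natAbs + (β j).natAbs)
          (fun _ _ => Nat.zero_le _) (mem_univ j)
        have h5 : t.1 ≤ X := ht1.1.1.2
        have h5' : t.2 ≤ X := ht1.1.2.2
        have h6 : (α j).natAbs + (β j).natAbs ≤ X := by
          have h4' : (α j).natAbs + (β j).natAbs ≤ ∑ j, ((α j).natAbs + (β j).natAbs) := h4
          omega
        calc (α j * (t.1 : ℤ) + β j * (t.2 : ℤ)).natAbs
            ≤ (α j).natAbs * t.1 + (β j).natAbs * t.2 := h3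
          _ ≤ (α j).natAbs * X + (β j).natAbs * X :=
              add_le_add (Nat.mul_le_mul_left _ h5) (Nat.mul_le_mul_left _ h5')
          _ = ((α j).natAbs + (β j).natAbs) * X := by ring
          _ ≤ X * X := Nat.mul_le_mul_right _ h6
          _ = X ^ 2 := by ring) hX1 (by omega) hk D hD
    have hts' : S1 z y (fv α β (t.1 : ℤ) (t.2 : ℤ)) = s := hts
    have htv' : S2 z y (fv α β (t.1 : ℤ) (t.2 : ℤ)) = v := htv
    rw [hts', htv'] at hr
    have hr' : (2 : ℝ) ^ Module.finrank ℤ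
        (EAB (D * FM (c4 cls) a μ (fv α β (t.1 : ℤ) (t.2 : ℤ)) 0)
        (D * FM (c4 cls) a μ (fv α β (t.1 : ℤ) (t.2 : ℤ)) 1)).toAffine.Point ≤
        64 ^ D.natAbs.primeFactors.card * (4 ^ (z + 2) * (16 ^ N) ^ k *
          4 ^ (∑ j, (v j).primeFactors.card) * g (Et t)) := by
      show (2 : ℝ) ^ Module.finrank ℤ
        (EAB (D * FM (c4 cls) a μ (fv α β (t.1 : ℤ) (t.2 : ℤ)) 0)
        (D * FM (c4 cls) a μ (fv α β (t.1 : ℤ) (t.2 : ℤ)) 1)).toAffine.Point ≤
        64 ^ D.natAbs.primeFactors.card * (4 ^ (z + 2) * (16 ^ Fintype.card J) ^ k *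
          4 ^ (∑ j, (v j).primeFactors.card) *
          (NL (∏ j, s j) (LSs cls s (ES cls a μ α β D s (t.2 : ℤ))) : ℝ))
      exact_mod_cast hr
    rw [four_pow]
    refine (pow_le_pow_left₀ (by positivity) hr' 2).trans (le_of_eq ?_)
    rw [hW]
    have e1 : (4096 : ℝ) ^ D.natAbs.primeFactors.card =
        (64 ^ D.natAbs.primeFactors.card) ^ 2 := by
      rw [← pow_mul, mul_comm _ 2, pow_mul]; norm_num
    have e2 : (16 : ℝ) ^ (z + 2) = (4 ^ (z + 2)) ^ 2 := by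
      rw [← pow_mul, mul_comm _ 2, pow_mul]; norm_num
    have e3 : ((256 : ℝ) ^ N) ^ k = ((16 ^ N) ^ k) ^ 2 := by
      have e3a : ((256 : ℝ) ^ N) ^ k = 256 ^ (N * k) := (pow_mul _ _ _).symm
      have e3b : (((16 : ℝ) ^ N) ^ k) ^ 2 = (16 ^ 2) ^ (N * k) := by
        rw [← pow_mul (16 : ℝ) N k, ← pow_mul, mul_comm (N * k) 2, pow_mul]
      rw [e3a, e3b]
      norm_num
    have e4 : (16 : ℝ) ^ (∑ j, (v j).primeFactors.card) =
        (4 ^ (∑ j, (v j).primeFactors.card)) ^ 2 := by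
      rw [← pow_mul, mul_comm _ 2, pow_mul]; norm_num
    rw [e1, e2, e3, e4]
    ring
  set Q : ℝ := C * X ^ 2 * (1 / 2) ^ (Q0 s).card * (∏ j, gw 1 N (s j)) *
        (∏ j, gw 1 N (v j) / v j) * (∏ j, 1 / (u j : ℝ)) / (Real.log y) ^ N with hQ
  have hsT := mem_Tup'.1 hs
  have h3 : ∀ E, ((T'.filter (fun t => Et t = E)).card : ℝ) ≤ Q := by
    intro E
    set e : ℕ → Bool := fun p => if h : ∃ j, p ∣ s j then
      xor (sg0 p (kc cls a μ α β D h.choose)) (decide (p ∈ E)) else false with he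
    refine le_trans ?_ (hcn X y Y hy00 hzy hyK s hs v hv u hu h8 e)
    have h4 : T'.filter (fun t => Et t = E) ⊆ (Icc 1 X ×ˢ Icc 1 X).filter (fun t : ℕ × ℕ =>
        t.1.Coprime t.2 ∧
        S1 z y (fv α β (t.1 : ℤ) (t.2 : ℤ)) = s ∧ S2 z y (fv α β (t.1 : ℤ) (t.2 : ℤ)) = v ∧
        (∀ j, (u j : ℤ) ∣ fv α β (t.1 : ℤ) (t.2 : ℤ) j) ∧
        ∀ p ∈ Q0 s, sg0 p (t.2 : ℤ) = e p) := by
      intro t ht
      rw [mem_filter] at ht
      have ht1 := hT' ht.1
      rw [mem_filter] at ht1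
      rw [mem_filter]
      refine ⟨ht1.1, ht1.2.1, (hT2 t ht.1).1, (hT2 t ht.1).2.1, (hT2 t ht.1).2.2, ?_⟩
      intro p hp
      have hpp := Nat.prime_of_mem_primeFactors hp
      have hex : ∃ j, p ∣ s j := by
        obtain ⟨j, _, hj⟩ := (hpp.prime.dvd_finsetProd_iff _).1 (Nat.dvd_of_mem_primeFactors hp)
        exact ⟨j, hj⟩
      have hch := hex.choose_spec
      have hep : e p = xor (sg0 p (kc cls a μ α β D hex.choose)) (decide (p ∈ E)) := by
        rw [he]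
        simp only
        rw [dif_pos hex]
      have huq : ∀ l, p ∣ s l → l = hex.choose := by
        intro l hl
        by_contra hne
        have h5 := hsT.2 l hex.choose hne
        have h6 : p ∣ (s l).gcd (s hex.choose) := Nat.dvd_gcd hl hch
        rw [h5.gcd_eq_one] at h6
        exact hpp.one_lt.ne' (Nat.dvd_one.1 h6)
      rw [hep]
      generalize hex.choose = j0 at hch huq ⊢
      have hiff : p ∈ E ↔ xor (sg0 p (kc cls a μ α β D j0)) (sg0 p (t.2 : ℤ)) = true := by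
        rw [← ht.2, hEt]
        simp only
        unfold ES
        rw [mem_filter]
        constructor
        · rintro ⟨_, l, hl, hl2⟩
          rw [huq l hl] at hl2
          exact hl2
        · intro h
          exact ⟨hp, j0, hch, h⟩
      by_cases hpE : p ∈ E
      · have h7 := hiff.1 hpE
        rw [decide_eq_true hpE]
        revert h7
        generalize sg0 p (kc cls a μ α β D j0) = b1
        generalize sg0 p (t.2 : ℤ) = b2
        revert b1 b2
        decide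
      · have h7 : ¬ (xor (sg0 p (kc cls a μ α β D j0)) (sg0 p (t.2 : ℤ)) = true) :=
          fun h => hpE (hiff.2 h)
        rw [decide_eq_false hpE]
        revert h7
        generalize sg0 p (kc cls a μ α β D j0) = b1
        generalize sg0 p (t.2 : ℤ) = b2
        revert b1 b2
        decide
    exact_mod_cast card_le_card h4
  have hmaps : ∀ t ∈ T', Et t ∈ (Q0 s).powerset := by
    intro t _
    rw [mem_powerset, hEt]
    simp only
    unfold ES
    exact filter_subset _ _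
  calc ∑ t ∈ T', (4 : ℝ) ^ Module.finrank ℤ
          (EAB (D * FM (c4 cls) a μ (fv α β (t.1 : ℤ) (t.2 : ℤ)) 0)
            (D * FM (c4 cls) a μ (fv α β (t.1 : ℤ) (t.2 : ℤ)) 1)).toAffine.Point
      ≤ ∑ t ∈ T', W * (g (Et t)) ^ 2 := sum_le_sum h1
    _ = ∑ E ∈ (Q0 s).powerset, ∑ t ∈ T'.filter (fun t => Et t = E), W * (g (Et t)) ^ 2 :=
        (sum_fiberwise_of_maps_to hmaps _).symm
    _ = ∑ E ∈ (Q0 s).powerset, ((T'.filter (fun t => Et t = E)).card : ℝ) *
          (W * (g E) ^ 2) := by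
        apply sum_congr rfl
        intro E _
        rw [← nsmul_eq_mul, ← sum_const]
        apply sum_congr rfl
        intro t ht
        rw [(mem_filter.1 ht).2]
    _ ≤ ∑ E ∈ (Q0 s).powerset, Q * (W * (g E) ^ 2) := by
        apply sum_le_sum
        intro E _
        exact mul_le_mul_of_nonneg_right (h3 E) (by positivity)
    _ = _ := by
        have e1 : ∑ E ∈ (Q0 s).powerset, (g E) ^ 2 =
            ∑ E ∈ (Q0 s).powerset, ∏ _i : Fin 2, (NL (∏ j, s j) (LSs cls s E) : ℝ) := by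
          apply sum_congr rfl
          intro E _
          rw [prod_const, card_univ, Fintype.card_fin]
        have e2 : (∏ j, (16 : ℝ) ^ (v j).primeFactors.card * (gw 1 N (v j) / v j)) =
            16 ^ (∑ j, (v j).primeFactors.card) * ∏ j, (gw 1 N (v j) / v j) := by
          rw [prod_mul_distrib, prod_pow_eq_pow_sum]
        rw [← mul_sum, ← mul_sum, e1, e2, hQ, hW]
        unfold NS
        ring

end Pool.Agent.L7h19.RH
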