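import Mathlib
import Pool.Agent.W307.RT.Box
import Pool.Agent.L7h19.RH.Avg

/-!
# The second moment over a box
-/

set_option autoImplicit false
set_option linter.unusedSectionVars false

namespace Pool.Agent.L7h19.RH

open Finset Pool.Agent.W262.RK Pool.Agent.W307.RT Pool.Agent.W571.RT

variable {J : Type} [Fintype J] [DecidableEq J]

/-- the summand -/
noncomputable def R0 (cls : J → Fin 3) (a : Fin 3 → ℤ) (μ : J → ℕ) (α β : J → ℤ) (D : ℤ)
    (t : ℤ × ℤ) : ℝ := by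
  classical
  exact if IsCoprime t.1 t.2 ∧ ∀ j, fv α β t.1 t.2 j ≠ 0 then
    (4 : ℝ) ^ Module.finrank ℤ (EAB (D * FM (c4 cls) a μ (fv α β t.1 t.2) 0)
        (D * FM (c4 cls) a μ (fv α β t.1 t.2) 1)).toAffine.Point else 0

lemma R0_nonneg (cls : J → Fin 3) (a : Fin 3 → ℤ) (μ : J → ℕ) (α β : J → ℤ) (D : ℤ)
    (t : ℤ × ℤ) : 0 ≤ R0 cls a μ α β D t := by
  unfold R0
  split_ifs
  · positivity
  · exact le_rfl

lemma fv_lin (α β : J → ℤ) (q : ℤ) (e : ℤ × ℤ) (u v : ℤ) :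
    fv α β (e.1 * u) (e.2 * v + q * (e.1 * u)) =
      fv (fun j => e.1 * (α j + q * β j)) (fun j => e.2 * β j) u v := by
  funext j
  unfold fv
  ring

lemma cop_lin {q : ℤ} {e : ℤ × ℤ} {u v : ℕ}
    (h : IsCoprime (e.1 * (u : ℤ)) (e.2 * (v : ℤ) + q * (e.1 * (u : ℤ)))) : u.Coprime v := by
  rw [← Nat.isCoprime_iff_coprime]
  have h1 : IsCoprime (e.1 * (u : ℤ)) (e.2 * (v : ℤ)) := by
    rwa [mul_comm q, IsCoprime.add_mul_left_right_iff] at h
  have h2 : IsCoprime (u : ℤ) (e.2 * (v : ℤ)) := (IsCoprime.mul_left_iff.1 h1).2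
  exact (IsCoprime.mul_right_iff.1 h2).2

lemma crude4 {A B D : ℤ} (hA : A ≠ 0) (hB : B ≠ 0) (hAB : A ≠ B) (hD : D ≠ 0) :
    (4 : ℝ) ^ Module.finrank ℤ (EAB (D * A) (D * B)).toAffine.Point ≤
      4096 ^ D.natAbs.primeFactors.card *
        16 ^ ((2 * A * B * (A - B)).natAbs.primeFactors.card + 2) := by
  have h2 := crude hA hB hAB hD
  have h3 : (2 : ℝ) ^ Module.finrank ℤ (EAB (D * A) (D * B)).toAffine.Point ≤
      4 ^ (D.natAbs.primeFactors.card +
        ((2 * A * B * (A - B)).natAbs.primeFactors.card + 2)) := by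
    exact_mod_cast h2
  rw [four_pow]
  calc ((2 : ℝ) ^ Module.finrank ℤ (EAB (D * A) (D * B)).toAffine.Point) ^ 2
      ≤ (4 ^ (D.natAbs.primeFactors.card +
        ((2 * A * B * (A - B)).natAbs.primeFactors.card + 2))) ^ 2 :=
        pow_le_pow_left₀ (by positivity) h3 2
    _ = 16 ^ D.natAbs.primeFactors.card *
        16 ^ ((2 * A * B * (A - B)).natAbs.primeFactors.card + 2) := by
        rw [← pow_mul, mul_comm _ 2, pow_mul]
        norm_num
        rw [pow_add]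
    _ ≤ _ := by
        apply mul_le_mul_of_nonneg_right _ (by positivity)
        exact pow_le_pow_left₀ (by norm_num) (by norm_num) _

/-- one point, uniformly in the twist -/
lemma R0_pt (cls : J → Fin 3) {a : Fin 3 → ℤ} (μ : J → ℕ) (α β : J → ℤ) (ha : ∀ k, a k ≠ 0)
    (hF : ∀ u v : ℤ, FM (c4 cls) a μ (fv α β u v) 0 - FM (c4 cls) a μ (fv α β u v) 1 =
      FM (c4 cls) a μ (fv α β u v) 2) (t : ℤ × ℤ) :
    ∃ C : ℝ, 0 ≤ C ∧ ∀ D : ℤ, D ≠ 0 →
      R0 cls a μ α β D t ≤ C * 4096 ^ D.natAbs.primeFactors.card := by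
  by_cases h : IsCoprime t.1 t.2 ∧ ∀ j, fv α β t.1 t.2 j ≠ 0
  · have hFne : ∀ k, FM (c4 cls) a μ (fv α β t.1 t.2) k ≠ 0 := fun k =>
      mul_ne_zero (ha k) (prod_ne_zero_iff.2 fun l _ => pow_ne_zero _ (h.2 l))
    refine ⟨16 ^ ((2 * FM (c4 cls) a μ (fv α β t.1 t.2) 0 * FM (c4 cls) a μ (fv α β t.1 t.2) 1 *
      (FM (c4 cls) a μ (fv α β t.1 t.2) 0 -
        FM (c4 cls) a μ (fv α β t.1 t.2) 1)).natAbs.primeFactors.card + 2), by positivity,
      fun D hD => ?_⟩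
    unfold R0
    rw [if_pos h]
    exact (crude4 (hFne 0) (hFne 1) (fun h => hFne 2 (by
      rw [← hF]
      exact sub_eq_zero.2 h)) hD).trans (le_of_eq (mul_comm _ _))
  · refine ⟨0, le_rfl, fun D _ => ?_⟩
    unfold R0
    rw [if_neg h, zero_mul]

theorem boxh (cls : J → Fin 3) (n : ℕ)
    (hn : ∀ c : Fin 3, (univ.filter (fun j => cls j = c)).card = n) (a : Fin 3 → ℤ)
    (μ : J → ℕ) (α β : J → ℤ) (ha : ∀ k, a k ≠ 0) (hμ : ∀ j, Odd (μ j))
    (hR : ∀ j l, j ≠ l → Res α β j l ≠ 0) (hodd : ∀ k, Odd (∑ l ∈ fc (c4 cls) k, μ l))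
    (hF : ∀ u v : ℤ, FM (c4 cls) a μ (fv α β u v) 0 - FM (c4 cls) a μ (fv α β u v) 1 =
      FM (c4 cls) a μ (fv α β u v) 2) :
    ∃ C : ℝ, 0 ≤ C ∧ ∀ D : ℤ, D ≠ 0 → ∀ X : ℕ, 1 ≤ X →
      ∑ t ∈ Box X, R0 cls a μ α β D t ≤
      C * (4096 ^ D.natAbs.primeFactors.card * X ^ 2) := by
  classical
  -- the shift
  obtain ⟨q, hq⟩ : ∃ q : ℕ, ∀ j, α j + (q : ℤ) * β j ≠ 0 := by
    have hne : ∀ j, α j ≠ 0 ∨ β j ≠ 0 := by
      intro j
      have hex : ∃ l, l ≠ j := by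
        have h1 := hodd (if cls j = 0 then 1 else 0)
        have h2 : (fc (c4 cls) (if cls j = 0 then 1 else 0)).Nonempty := by
          rw [nonempty_iff_ne_empty]
          intro h
          rw [h, sum_empty] at h1
          exact absurd h1 (by decide)
        obtain ⟨l, hl⟩ := h2
        refine ⟨l, ?_⟩
        rintro rfl
        unfold fc c4 at hl
        rw [mem_filter] at hl
        have h3 := hl.2
        revert h3
        generalize cls l = c
        revert c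
        decide
      obtain ⟨l, hl⟩ := hex
      by_contra h
      push Not at h
      apply hR j l hl.symm
      unfold Res
      rw [h.1, h.2]
      ring
    refine ⟨∑ j, (α j).natAbs + 1, fun j h => ?_⟩
    have h2 := single_le_sum (f := fun j => (α j).natAbs) (fun _ _ => Nat.zero_le _) (mem_univ j)
    have h2' : (α j).natAbs ≤ ∑ j, (α j).natAbs := h2
    clear h2
    generalize ∑ j, (α j).natAbs = S at h h2'
    by_cases hb : β j = 0
    · rw [hb, mul_zero, add_zero] at h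
      rcases hne j with h3 | h3
      · exact h3 h
      · exact h3 hb
    · have h3 : α j = -(((S + 1 : ℕ) : ℤ) * β j) := by linarith
      have h4 : (α j).natAbs = (S + 1) * (β j).natAbs := by
        rw [h3, Int.natAbs_neg, Int.natAbs_mul, Int.natAbs_natCast]
      have h5 := Int.natAbs_pos.2 hb
      have h6 : (S + 1) * 1 ≤ (S + 1) * (β j).natAbs := Nat.mul_le_mul_left _ h5
      omega
  have hE : ∀ e ∈ sgs, ∃ C : ℝ, 0 ≤ C ∧ ∀ D : ℤ, D ≠ 0 → ∀ X : ℕ, 1 ≤ X →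
      ∑ t ∈ Icc 1 X ×ˢ Icc 1 X, R0 cls a μ α β D
        (e.1 * ((t.1 : ℕ) : ℤ), e.2 * ((t.2 : ℕ) : ℤ) + q * (e.1 * ((t.1 : ℕ) : ℤ))) ≤
      C * (4096 ^ D.natAbs.primeFactors.card * X ^ 2) := by
    intro e he
    have he' := he
    rw [mem_sgs] at he'
    have he1 : e.1 ≠ 0 := by rcases he'.1 with h | h <;> rw [h] <;> norm_num
    have he2 : e.2 ≠ 0 := by rcases he'.2 with h | h <;> rw [h] <;> norm_num
    obtain ⟨C, hC0, hC⟩ := avgh cls n hn a μ (fun j => e.1 * (α j + q * β j))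
      (fun j => e.2 * β j) ha hμ (fun j => mul_ne_zero he1 (hq j)) (fun j l hjl => by
        have : Res (fun j => e.1 * (α j + q * β j)) (fun j => e.2 * β j) j l =
            e.1 * e.2 * Res α β j l := by
          unfold Res
          ring
        rw [this]
        exact mul_ne_zero (mul_ne_zero he1 he2) (hR j l hjl)) hodd (fun u v => by
        rw [← fv_lin]
        exact hF _ _)
    refine ⟨C, hC0, fun D hD X hX => le_trans ?_ (hC D hD X hX)⟩
    rw [sum_filter]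
    apply sum_le_sum
    intro t _
    unfold R0
    simp only
    rw [fv_lin]
    by_cases h : IsCoprime (e.1 * (t.1 : ℤ)) (e.2 * (t.2 : ℤ) + q * (e.1 * (t.1 : ℤ))) ∧
        ∀ j, fv (fun j => e.1 * (α j + q * β j)) (fun j => e.2 * β j) (t.1 : ℤ) (t.2 : ℤ) j ≠ 0
    · rw [if_pos h, if_pos ⟨cop_lin h.1, h.2⟩]
    · rw [if_neg h]
      split_ifs
      · positivity
      · exact le_rfl
  choose! Ce hCe0 hCe using hE
  obtain ⟨C1, hC10, hC1⟩ := R0_pt cls μ α β ha hF (0, 1 + q * 0)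
  obtain ⟨C2, hC20, hC2⟩ := R0_pt cls μ α β ha hF (0, -1 + q * 0)
  obtain ⟨C3, hC30, hC3⟩ := R0_pt cls μ α β ha hF (1, 0 + q * 1)
  obtain ⟨C5, hC50, hC5⟩ := R0_pt cls μ α β ha hF (-1, 0 + q * (-1))
  refine ⟨(∑ e ∈ sgs, Ce e) * (q + 1) ^ 2 + (C1 + C2 + C3 + C5), ?_, fun D hD X hX => ?_⟩
  · have : 0 ≤ ∑ e ∈ sgs, Ce e := sum_nonneg fun e he => hCe0 e he
    positivity
  set g : ℤ × ℤ → ℝ := fun t => R0 cls a μ α β D (t.1, t.2 + q * t.1) with hg
  have hg0 : ∀ t, 0 ≤ g t := fun t => R0_nonneg _ _ _ _ _ _ _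
  have hgc : ∀ t, g t ≠ 0 → IsCoprime t.1 t.2 := by
    intro t ht
    by_contra h
    apply ht
    rw [hg]
    unfold R0
    simp only
    rw [if_neg]
    rintro ⟨h1, _⟩
    apply h
    rwa [mul_comm (q : ℤ), IsCoprime.add_mul_left_right_iff] at h1
  have h1 : ∑ t ∈ Box X, R0 cls a μ α β D t = ∑ t ∈ Box X, g (t.1, t.2 - q * t.1) := by
    apply sum_congr rfl
    intro t _
    rw [hg]
    simp only [sub_add_cancel]
  rw [h1]
  refine (box_shift g hg0 q X).trans ((box_le g hg0 hgc _).trans ?_)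
  have hX1 : (1 : ℝ) ≤ X := by exact_mod_cast hX
  have hX2 : (1 : ℝ) ≤ (X : ℝ) ^ 2 := one_le_pow₀ hX1
  have hw0 : (0 : ℝ) ≤ 4096 ^ D.natAbs.primeFactors.card := by positivity
  have h2 : ∑ e ∈ sgs, ∑ t ∈ Icc 1 ((q + 1) * X) ×ˢ Icc 1 ((q + 1) * X),
      g (e.1 * ((t.1 : ℕ) : ℤ), e.2 * ((t.2 : ℕ) : ℤ)) ≤
      (∑ e ∈ sgs, Ce e) * (q + 1) ^ 2 * (4096 ^ D.natAbs.primeFactors.card * X ^ 2) := by
    rw [sum_mul, sum_mul]
    apply sum_le_sum
    intro e he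
    have h3 := hCe e he D hD ((q + 1) * X) (Nat.mul_pos (Nat.succ_pos q) hX)
    refine h3.trans (le_of_eq ?_)
    push_cast
    ring
  have h3 : g (0, 1) ≤ C1 * 4096 ^ D.natAbs.primeFactors.card := hC1 D hD
  have h4 : g (0, -1) ≤ C2 * 4096 ^ D.natAbs.primeFactors.card := hC2 D hD
  have h5 : g (1, 0) ≤ C3 * 4096 ^ D.natAbs.primeFactors.card := hC3 D hD
  have h6 : g (-1, 0) ≤ C5 * 4096 ^ D.natAbs.primeFactors.card := hC5 D hD
  have h7 : (C1 + C2 + C3 + C5) * 4096 ^ D.natAbs.primeFactors.card ≤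
      (C1 + C2 + C3 + C5) * (4096 ^ D.natAbs.primeFactors.card * X ^ 2) := by
    apply mul_le_mul_of_nonneg_left _ (by positivity)
    exact le_mul_of_one_le_right hw0 hX2
  calc _ ≤ (∑ e ∈ sgs, Ce e) * (q + 1) ^ 2 * (4096 ^ D.natAbs.primeFactors.card * X ^ 2) +
        (C1 + C2 + C3 + C5) * 4096 ^ D.natAbs.primeFactors.card := by
        apply add_le_add h2
        linarith
    _ ≤ _ := by
        rw [add_mul]
        linarith

end Pool.Agent.L7h19.RH
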