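import Mathlib
import Pool.Agent.L7h19.RH.Box

/-!
# The second moment over all the integral points of a box
-/

set_option autoImplicit false
set_option linter.unusedSectionVars false

namespace Pool.Agent.L7h19.RH

open Finset Pool.Agent.W262.RK Pool.Agent.W307.RT Pool.Agent.W571.RT

/-- `c ^ ω(n)` is at most a constant times the square root of `n` -/
lemma pow_omega (c n : ℕ) (hn : n ≠ 0) (hc : 1 ≤ c) :
    (c ^ n.primeFactors.card) ^ 2 ≤ (c ^ 2) ^ (c ^ 2) * n := by
  have h1 : (c ^ n.primeFactors.card) ^ 2 = ∏ _p ∈ n.primeFactors, c ^ 2 := by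
    rw [prod_const, ← pow_mul, mul_comm, pow_mul]
  rw [h1, ← prod_filter_mul_prod_filter_not n.primeFactors (fun p => p ≤ c ^ 2)]
  apply Nat.mul_le_mul
  · rw [prod_const]
    apply Nat.pow_le_pow_right (by positivity)
    have h2 : n.primeFactors.filter (fun p => p ≤ c ^ 2) ⊆ Icc 1 (c ^ 2) := by
      intro p hp
      rw [mem_filter] at hp
      rw [mem_Icc]
      exact ⟨(Nat.prime_of_mem_primeFactors hp.1).one_le, hp.2⟩
    refine (card_le_card h2).trans ?_
    simp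
  · have h3 : ∏ _p ∈ n.primeFactors.filter (fun p => ¬ p ≤ c ^ 2), c ^ 2 ≤
        ∏ p ∈ n.primeFactors.filter (fun p => ¬ p ≤ c ^ 2), p := by
      apply prod_le_prod'
      intro p hp
      rw [mem_filter] at hp
      omega
    refine h3.trans ?_
    apply Nat.le_of_dvd (Nat.pos_of_ne_zero hn)
    exact (prod_dvd_prod_of_subset _ _ _ (filter_subset _ _)).trans (Nat.prod_primeFactors_dvd _)

lemma sum_omega (c : ℕ) (hc : 1 ≤ c) : ∃ C : ℝ, 0 ≤ C ∧ ∀ X : ℕ,
    ∑ g ∈ Icc 1 X, (c : ℝ) ^ g.primeFactors.card / (g : ℝ) ^ 2 ≤ C := by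
  have hsq : Summable (fun n : ℕ => 1 / (n : ℝ) ^ (3 / 2 : ℝ)) :=
    Real.summable_one_div_nat_rpow.2 (by norm_num)
  set K : ℝ := Real.sqrt (((c ^ 2) ^ (c ^ 2) : ℕ) : ℝ) with hK
  refine ⟨K * ∑' n : ℕ, 1 / (n : ℝ) ^ (3 / 2 : ℝ), ?_, fun X => ?_⟩
  · apply mul_nonneg (Real.sqrt_nonneg _)
    exact tsum_nonneg fun n => by positivity
  · have h1 : ∀ g ∈ Icc 1 X, (c : ℝ) ^ g.primeFactors.card / (g : ℝ) ^ 2 ≤
        K * (1 / (g : ℝ) ^ (3 / 2 : ℝ)) := by
      intro g hg
      rw [mem_Icc] at hg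
      have hg0 : (0 : ℝ) < g := by exact_mod_cast hg.1
      have h2 := pow_omega c g (by omega) hc
      have h3 : (c : ℝ) ^ g.primeFactors.card ≤ K * Real.sqrt g := by
        rw [hK, ← Real.sqrt_mul (Nat.cast_nonneg _)]
        apply Real.le_sqrt_of_sq_le
        exact_mod_cast h2
      calc (c : ℝ) ^ g.primeFactors.card / (g : ℝ) ^ 2 ≤ (K * Real.sqrt g) / (g : ℝ) ^ 2 :=
            div_le_div_of_nonneg_right h3 (by positivity)
        _ = K * (1 / (g : ℝ) ^ (3 / 2 : ℝ)) := by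
            rw [mul_div_assoc]
            congr 1
            rw [Real.sqrt_eq_rpow, div_eq_div_iff (by positivity) (by positivity), one_mul,
              ← Real.rpow_add hg0, ← Real.rpow_natCast]
            norm_num
    refine (sum_le_sum h1).trans ?_
    rw [← mul_sum]
    apply mul_le_mul_of_nonneg_left _ (Real.sqrt_nonneg _)
    exact hsq.sum_le_tsum (Icc 1 X) (fun n _ => by positivity)

variable {J : Type} [Fintype J] [DecidableEq J]

lemma fv_scale (α β : J → ℤ) (g u v : ℤ) (j : J) : fv α β (g * u) (g * v) j = g * fv α β u v j := by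
  unfold fv
  ring

lemma FM_scale {cls : J → Fin 4} (a : Fin 3 → ℤ) (μ : J → ℕ) (α β : J → ℤ) {d : ℕ}
    (hd : ∀ k, ∑ l ∈ fc cls k, μ l = d) (g u v : ℤ) (k : Fin 3) :
    FM cls a μ (fv α β (g * u) (g * v)) k = g ^ d * FM cls a μ (fv α β u v) k := by
  unfold FM
  have h1 : ∀ l, fv α β (g * u) (g * v) l ^ μ l = g ^ μ l * fv α β u v l ^ μ l := by
    intro l
    rw [fv_scale, mul_pow]
  rw [prod_congr rfl fun l _ => h1 l, prod_mul_distrib, prod_pow_eq_pow_sum, hd]
  ring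

/-- the summand -/
noncomputable def R1 (cls : J → Fin 3) (a : Fin 3 → ℤ) (μ : J → ℕ) (α β : J → ℤ) (D : ℤ)
    (t : ℤ × ℤ) : ℝ :=
  (4 : ℝ) ^ Module.finrank ℤ (EAB (D * FM (c4 cls) a μ (fv α β t.1 t.2) 0)
        (D * FM (c4 cls) a μ (fv α β t.1 t.2) 1)).toAffine.Point

theorem allh (cls : J → Fin 3) (n : ℕ)
    (hn : ∀ c : Fin 3, (univ.filter (fun j => cls j = c)).card = n) (a : Fin 3 → ℤ)
    (μ : J → ℕ) (α β : J → ℤ) (ha : ∀ k, a k ≠ 0) (hμ : ∀ j, Odd (μ j))
    (hR : ∀ j l, j ≠ l → Res α β j l ≠ 0) (d : ℕ) (hd : Odd d)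
    (hdeg : ∀ k, ∑ l ∈ fc (c4 cls) k, μ l = d)
    (hF : ∀ u v : ℤ, FM (c4 cls) a μ (fv α β u v) 0 - FM (c4 cls) a μ (fv α β u v) 1 =
      FM (c4 cls) a μ (fv α β u v) 2) :
    ∃ C : ℝ, 0 ≤ C ∧ ∀ D : ℤ, D ≠ 0 → ∀ X : ℕ, 1 ≤ X →
      ∑ t ∈ (Box X).filter (fun t => ∀ j, fv α β t.1 t.2 j ≠ 0), R1 cls a μ α β D t ≤
      C * (4096 ^ D.natAbs.primeFactors.card * X ^ 2) := by
  classical
  obtain ⟨C, hC0, hC⟩ := boxh cls n hn a μ α β ha hμ hR (fun k => by rw [hdeg]; exact hd) hF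
  obtain ⟨S, hS0, hS⟩ := sum_omega 4096 (by norm_num)
  have hJ : Nonempty J := by
    by_contra h
    rw [not_nonempty_iff] at h
    have h1 := hdeg 0
    rw [sum_eq_zero (fun l _ => (h.elim l))] at h1
    rw [← h1] at hd
    exact absurd hd (by decide)
  refine ⟨C * S, by positivity, fun D hD X hX => ?_⟩
  set G := (Box X).filter (fun t => ∀ j, fv α β t.1 t.2 j ≠ 0) with hG
  have hgcd : ∀ t ∈ G, Int.gcd t.1 t.2 ∈ Icc 1 X := by
    intro t ht
    rw [hG, mem_filter, mem_Box] at ht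
    have hne : t.1 ≠ 0 ∨ t.2 ≠ 0 := by
      by_contra h
      push Not at h
      obtain ⟨j⟩ := hJ
      apply ht.2 j
      unfold fv
      rw [h.1, h.2]
      ring
    rw [mem_Icc]
    constructor
    · apply Nat.succ_le_of_lt
      exact Int.gcd_pos_iff.2 hne
    · rcases hne with h | h
      · exact (Nat.le_of_dvd (Int.natAbs_pos.2 h)
          (Int.natAbs_dvd_natAbs.2 (Int.gcd_dvd_left _ _))).trans ht.1.1
      · exact (Nat.le_of_dvd (Int.natAbs_pos.2 h)
          (Int.natAbs_dvd_natAbs.2 (Int.gcd_dvd_right _ _))).trans ht.1.2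
  rw [← sum_fiberwise_of_maps_to hgcd]
  have hfib : ∀ g ∈ Icc 1 X, ∑ t ∈ G.filter (fun t => Int.gcd t.1 t.2 = g),
      R1 cls a μ α β D t ≤
      (C * (4096 ^ D.natAbs.primeFactors.card * X ^ 2)) *
        (((4096 : ℕ) : ℝ) ^ g.primeFactors.card / (g : ℝ) ^ 2) := by
    intro g hg
    rw [mem_Icc] at hg
    have hg0 : (g : ℤ) ≠ 0 := by exact_mod_cast (by omega : g ≠ 0)
    have hgr : (0 : ℝ) < g := by exact_mod_cast hg.1
    set φ : ℤ × ℤ → ℤ × ℤ := fun t => (t.1 / g, t.2 / g) with hφ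
    have hback : ∀ t ∈ G.filter (fun t => Int.gcd t.1 t.2 = g),
        t = ((g : ℤ) * (φ t).1, (g : ℤ) * (φ t).2) := by
      intro t ht
      rw [mem_filter] at ht
      have h1 : (g : ℤ) ∣ t.1 := by
        rw [← ht.2]
        exact Int.gcd_dvd_left _ _
      have h2 : (g : ℤ) ∣ t.2 := by
        rw [← ht.2]
        exact Int.gcd_dvd_right _ _
      rw [hφ]
      simp only
      rw [Int.mul_ediv_cancel' h1, Int.mul_ediv_cancel' h2]
    have hinj : Set.InjOn φ (G.filter (fun t => Int.gcd t.1 t.2 = g) : Set (ℤ × ℤ)) := by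
      intro t ht t' ht' h
      rw [hback t ht, hback t' ht', h]
    have hDg : D * (g : ℤ) ^ d ≠ 0 := mul_ne_zero hD (pow_ne_zero _ hg0)
    have hval : ∀ t ∈ G.filter (fun t => Int.gcd t.1 t.2 = g), R1 cls a μ α β D t =
        R0 cls a μ α β (D * (g : ℤ) ^ d) (φ t) ∧ φ t ∈ Box (X / g) := by
      intro t ht
      have hb := hback t ht
      rw [mem_filter, hG, mem_filter, mem_Box] at ht
      obtain ⟨⟨⟨hb1, hb2⟩, hf⟩, hgc⟩ := ht
      have hcop : IsCoprime (φ t).1 (φ t).2 := by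
        rw [Int.isCoprime_iff_gcd_eq_one]
        have h3 : Int.gcd t.1 t.2 = g * Int.gcd (φ t).1 (φ t).2 := by
          conv_lhs => rw [hb]
          simp only
          rw [Int.gcd_mul_left, Int.natAbs_natCast]
        rw [hgc] at h3
        have h4 : g * 1 = g * Int.gcd (φ t).1 (φ t).2 := by rw [mul_one]; exact h3
        exact (Nat.eq_of_mul_eq_mul_left hg.1 h4).symm
      constructor
      · unfold R1 R0
        have e1 : fv α β t.1 t.2 = fv α β ((g : ℤ) * (φ t).1) ((g : ℤ) * (φ t).2) := by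
          conv_lhs => rw [hb]
        rw [if_pos, e1, FM_scale a μ α β hdeg, FM_scale a μ α β hdeg, mul_assoc D, mul_assoc D]
        refine ⟨hcop, fun j hj => hf j ?_⟩
        rw [e1, fv_scale, hj, mul_zero]
      · rw [mem_Box, Nat.le_div_iff_mul_le hg.1, Nat.le_div_iff_mul_le hg.1]
        have h5 : t.1.natAbs = (φ t).1.natAbs * g := by
          conv_lhs => rw [hb]
          simp only
          rw [Int.natAbs_mul, Int.natAbs_natCast, mul_comm]
        have h6 : t.2.natAbs = (φ t).2.natAbs * g := by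
          conv_lhs => rw [hb]
          simp only
          rw [Int.natAbs_mul, Int.natAbs_natCast, mul_comm]
        rw [← h5, ← h6]
        exact ⟨hb1, hb2⟩
    have h1 : ∑ t ∈ G.filter (fun t => Int.gcd t.1 t.2 = g), R1 cls a μ α β D t ≤
        ∑ y ∈ Box (X / g), R0 cls a μ α β (D * (g : ℤ) ^ d) y := by
      rw [sum_congr rfl fun t ht => (hval t ht).1,
        ← sum_image (f := fun y => R0 cls a μ α β (D * (g : ℤ) ^ d) y) hinj]
      apply sum_le_sum_of_subset_of_nonneg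
      · intro y hy
        obtain ⟨t, ht, rfl⟩ := mem_image.1 hy
        exact (hval t ht).2
      · intro y _ _
        exact R0_nonneg _ _ _ _ _ _ _
    have hXg : 1 ≤ X / g := (Nat.le_div_iff_mul_le hg.1).2 (by rw [one_mul]; exact hg.2)
    refine h1.trans ((hC (D * (g : ℤ) ^ d) hDg (X / g) hXg).trans ?_)
    have h2 : ((X / g : ℕ) : ℝ) ≤ (X : ℝ) / g := Nat.cast_div_le
    have h3 : (D * (g : ℤ) ^ d).natAbs.primeFactors.card ≤
        D.natAbs.primeFactors.card + g.primeFactors.card := by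
      refine le_trans (card_le_card ?_) (card_union_le _ _)
      rw [Int.natAbs_mul, Int.natAbs_pow, Int.natAbs_natCast]
      intro p hp
      have hpp := Nat.prime_of_mem_primeFactors hp
      rw [mem_union, Nat.mem_primeFactors, Nat.mem_primeFactors]
      rcases (hpp.dvd_mul.1 (Nat.dvd_of_mem_primeFactors hp)) with h | h
      · exact Or.inl ⟨hpp, h, Int.natAbs_ne_zero.2 hD⟩
      · exact Or.inr ⟨hpp, hpp.dvd_of_dvd_pow h, by omega⟩
    have h4 : (4096 : ℝ) ^ (D * (g : ℤ) ^ d).natAbs.primeFactors.card ≤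
        4096 ^ D.natAbs.primeFactors.card * 4096 ^ g.primeFactors.card := by
      rw [← pow_add]
      exact pow_le_pow_right₀ (by norm_num) h3
    have h5 : ((X / g : ℕ) : ℝ) ^ 2 ≤ ((X : ℝ) / g) ^ 2 :=
      pow_le_pow_left₀ (Nat.cast_nonneg _) h2 2
    calc C * (4096 ^ (D * (g : ℤ) ^ d).natAbs.primeFactors.card * ((X / g : ℕ) : ℝ) ^ 2)
        ≤ C * ((4096 ^ D.natAbs.primeFactors.card * 4096 ^ g.primeFactors.card) *
            ((X : ℝ) / g) ^ 2) := by
          apply mul_le_mul_of_nonneg_left _ hC0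
          exact mul_le_mul h4 h5 (by positivity) (by positivity)
      _ = _ := by
          push_cast
          field_simp
  refine (sum_le_sum hfib).trans ?_
  rw [← mul_sum]
  have h1 : (0 : ℝ) ≤ C * (4096 ^ D.natAbs.primeFactors.card * X ^ 2) := by positivity
  refine (mul_le_mul_of_nonneg_left (hS X) h1).trans (le_of_eq ?_)
  ring

end Pool.Agent.L7h19.RH
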