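import Mathlib
import Pool.Agent.W307.RT.Box
import Pool.Agent.W307.RT.Tors
import Pool.Agent.W605.RT.PAR4
import Pool.Agent.W261.RT.Iso
import Pool.Agent.W29.RT.LOW4
import Pool.Agent.L7h19.RH.All

/-!
# The elliptic curves with full rational 2-torsion, by height
-/

set_option autoImplicit false

namespace Pool.Agent.L7h19.RH

open Finset Filter Pool.Agent.W262.RK Pool.Agent.W307.RT
open Pool.Agent.W605.RT (two_tors int_root)

/-- `r` are the roots in increasing order -/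
def RT3 (c : ℤ × ℤ) (r : ℤ × ℤ × ℤ) : Prop :=
  r.1 < r.2.1 ∧ r.2.1 < r.2.2 ∧ r.1 + r.2.1 + r.2.2 = 0 ∧
    c.1 = r.1 * r.2.1 + r.1 * r.2.2 + r.2.1 * r.2.2 ∧ c.2 = -(r.1 * r.2.1 * r.2.2)

lemma sort3 {x y w : ℤ} (h1 : x ≠ y) (h2 : x ≠ w) (h3 : y ≠ w) {c : ℤ × ℤ}
    (hs : x + y + w = 0) (hA : c.1 = x * y + x * w + y * w) (hB : c.2 = -(x * y * w)) :
    ∃ r, RT3 c r := by
  unfold RT3
  rcases lt_or_gt_of_ne h1 with a | a <;> rcases lt_or_gt_of_ne h2 with b | b <;>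
    rcases lt_or_gt_of_ne h3 with e | e
  · exact ⟨(x, y, w), a, e, hs, hA, hB⟩
  · exact ⟨(x, w, y), b, e, by simp only; linarith, by simp only; linarith,
      by simp only; linarith⟩
  · omega
  · exact ⟨(w, x, y), b, a, by simp only; linarith, by simp only; linarith,
      by simp only; linarith⟩
  · exact ⟨(y, x, w), a, b, by simp only; linarith, by simp only; linarith,
      by simp only; linarith⟩
  · omega
  · exact ⟨(y, w, x), e, b, by simp only; linarith, by simp only; linarith,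
      by simp only; linarith⟩
  · exact ⟨(w, y, x), e, a, by simp only; linarith, by simp only; linarith,
      by simp only; linarith⟩

lemma roots3 {A B : ℤ} (hD : 4 * A ^ 3 + 27 * B ^ 2 ≠ 0) (hT : HasT 2 (Sh A B)) :
    ∃ r, RT3 (A, B) r := by
  obtain ⟨P, Q, hP, hQ, hPQ⟩ := hT
  obtain ⟨e1, hn1, h1⟩ := two_tors hP
  obtain ⟨e2, hn2, h2⟩ := two_tors hQ
  have hne : e1 ≠ e2 := by
    rintro rfl
    apply hPQ
    rw [h2, ← h1]
    exact AddSubgroup.mem_zmultiples P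
  have r1 : e1 ^ 3 + A * e1 + B = 0 := by
    have := Pool.Agent.W605.RT.sh_eq.1 hn1.1
    linarith
  have r2 : e2 ^ 3 + A * e2 + B = 0 := by
    have := Pool.Agent.W605.RT.sh_eq.1 hn2.1
    linarith
  obtain ⟨x, hx⟩ := int_root r1
  obtain ⟨y, hy⟩ := int_root r2
  have hxy : x ≠ y := by
    rintro rfl
    exact hne (hx.symm.trans hy)
  have hs : e1 ^ 2 + e1 * e2 + e2 ^ 2 + A = 0 := by
    have : (e1 - e2) * (e1 ^ 2 + e1 * e2 + e2 ^ 2 + A) = 0 := by linear_combination r1 - r2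
    rcases mul_eq_zero.1 this with h | h
    · exact absurd (sub_eq_zero.1 h) hne
    · exact h
  rw [← hx, ← hy] at hs
  rw [← hx] at r1
  have hA : A = -(x ^ 2 + x * y + y ^ 2) := by
    have : (x : ℤ) ^ 2 + x * y + y ^ 2 + A = 0 := by exact_mod_cast hs
    linarith
  have hB : B = x * y * (x + y) := by
    have : (x : ℤ) ^ 3 + A * x + B = 0 := by exact_mod_cast r1
    rw [hA] at this
    linarith
  have hdisc : 4 * A ^ 3 + 27 * B ^ 2 = -((x - y) ^ 2 * (2 * x + y) ^ 2 * (x + 2 * y) ^ 2) := by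
    rw [hA, hB]; ring
  have n1 : 2 * x + y ≠ 0 := by
    intro h
    apply hD
    rw [hdisc, h]; ring
  have n2 : x + 2 * y ≠ 0 := by
    intro h
    apply hD
    rw [hdisc, h]; ring
  refine sort3 (x := x) (y := y) (w := -x - y) hxy ?_ ?_ (by ring) ?_ ?_
  · intro h
    apply n1
    linarith
  · intro h
    apply n2
    linarith
  · show A = _
    rw [hA]; ring
  · show B = _
    rw [hB]; ring

/-- the differences of the roots -/
noncomputable def FF (c : ℤ × ℤ) : ℤ × ℤ := by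
  classical
  exact if h : ∃ r, RT3 c r then (h.choose.2.1 - h.choose.1, h.choose.2.2 - h.choose.1) else (0, 0)

lemma FF_spec {c : ℤ × ℤ} (h : ∃ r, RT3 c r) : ∃ r, RT3 c r ∧
    FF c = (r.2.1 - r.1, r.2.2 - r.1) := by
  refine ⟨h.choose, h.choose_spec, ?_⟩
  unfold FF
  rw [dif_pos h]

lemma FF_det {c : ℤ × ℤ} {r : ℤ × ℤ × ℤ} (h : RT3 c r) {a b : ℤ} (ha : a = r.2.1 - r.1)
    (hb : b = r.2.2 - r.1) :
    3 * c.1 = -(a ^ 2 - a * b + b ^ 2) ∧ 27 * c.2 = (a + b) * (2 * a - b) * (2 * b - a) ∧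
      3 * r.1 = -(a + b) := by
  obtain ⟨-, -, hs, hA, hB⟩ := h
  have e3 : 3 * r.1 = -(a + b) := by rw [ha, hb]; linarith
  have e1 : r.2.1 = a + r.1 := by linarith
  have e2 : r.2.2 = b + r.1 := by linarith
  refine ⟨?_, ?_, e3⟩
  · rw [hA, e1, e2]
    have : 3 * (3 * (r.1 * (a + r.1) + r.1 * (b + r.1) + (a + r.1) * (b + r.1))) =
        3 * (-(a ^ 2 - a * b + b ^ 2)) := by
      linear_combination (9 * r.1 + 3 * (a + b)) * e3
    linarith
  · rw [hB, e1, e2]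
    linear_combination (-9 * r.1 ^ 2 - 6 * (a + b) * r.1 + 2 * (a + b) ^ 2 - 9 * a * b) * e3

lemma bound6 {c : ℤ × ℤ} {r : ℤ × ℤ × ℤ} (h : RT3 c r) {H : ℕ} (hH : 4 * |c.1| ^ 3 ≤ H) :
    (r.2.1 - r.1).natAbs ^ 6 ≤ 128 * H ∧ (r.2.2 - r.1).natAbs ^ 6 ≤ 128 * H := by
  have h0 := FF_det h rfl rfl
  obtain ⟨h1, h2, -⟩ := h
  set a := r.2.1 - r.1 with ha
  set b := r.2.2 - r.1 with hb
  have ha0 : 0 < a := by linarith
  have hab : a < b := by linarith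
  have e1 : 3 * |c.1| = a ^ 2 - a * b + b ^ 2 := by
    have h3 : (0 : ℤ) < a ^ 2 - a * b + b ^ 2 := by nlinarith
    have h4 : c.1 < 0 := by linarith [h0.1]
    rw [abs_of_neg h4]
    linarith [h0.1]
  have e2 : b ^ 2 ≤ 4 * |c.1| := by nlinarith [sq_nonneg (2 * a - b)]
  have e3 : b ^ 6 ≤ 16 * H := by
    have h5 : (b ^ 2) ^ 3 ≤ (4 * |c.1|) ^ 3 := pow_le_pow_left₀ (by positivity) e2 3
    have h6 : (4 * |c.1|) ^ 3 = 16 * (4 * |c.1| ^ 3) := by ring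
    have h7 : (b ^ 2) ^ 3 = b ^ 6 := by ring
    rw [h6, h7] at h5
    linarith
  have e4 : a ^ 6 ≤ b ^ 6 := pow_le_pow_left₀ ha0.le hab.le 6
  have e5 : (b.natAbs : ℤ) = b := Int.natAbs_of_nonneg (by linarith)
  have e6 : (a.natAbs : ℤ) = a := Int.natAbs_of_nonneg (by linarith)
  constructor
  · have : ((a.natAbs ^ 6 : ℕ) : ℤ) ≤ ((128 * H : ℕ) : ℤ) := by
      push_cast
      rw [← Int.natCast_natAbs, e6]
      have : (0 : ℤ) ≤ H := Int.natCast_nonneg H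
      linarith
    exact_mod_cast this
  · have : ((b.natAbs ^ 6 : ℕ) : ℤ) ≤ ((128 * H : ℕ) : ℤ) := by
      push_cast
      rw [← Int.natCast_natAbs, e5]
      have : (0 : ℤ) ≤ H := Int.natCast_nonneg H
      linarith
    exact_mod_cast this

lemma rank_eq {c : ℤ × ℤ} {r : ℤ × ℤ × ℤ} (h : RT3 c r) :
    Module.finrank ℤ (Sh c.1 c.2).toAffine.Point =
      Module.finrank ℤ (EAB (r.2.1 - r.1) (r.2.2 - r.1)).toAffine.Point := by
  obtain ⟨-, -, hs, hA, hB⟩ := h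
  obtain ⟨φ⟩ := Pool.Agent.W261.RT.iso 0 (c.1 : ℚ) (c.2 : ℚ) (r.1 : ℚ) 1 one_ne_zero
  have hcast : (r.1 : ℚ) + r.2.1 + r.2.2 = 0 := by exact_mod_cast hs
  have hAc : (c.1 : ℚ) = r.1 * r.2.1 + r.1 * r.2.2 + r.2.1 * r.2.2 := by exact_mod_cast hA
  have hBc : (c.2 : ℚ) = -(r.1 * r.2.1 * r.2.2) := by exact_mod_cast hB
  have hE : (⟨0, ((0 : ℚ) + 3 * r.1) / 1 ^ 2, 0, ((c.1 : ℚ) + 2 * r.1 * 0 + 3 * (r.1 : ℚ) ^ 2) / 1 ^ 4,
      ((c.2 : ℚ) + r.1 * c.1 + (r.1 : ℚ) ^ 2 * 0 + (r.1 : ℚ) ^ 3) / 1 ^ 6⟩ :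
        WeierstrassCurve ℚ) = EAB (r.2.1 - r.1) (r.2.2 - r.1) := by
    unfold EAB
    have h3 : (r.2.2 : ℚ) = -r.1 - r.2.1 := by linarith
    rw [WeierstrassCurve.mk.injEq]
    push_cast
    rw [hBc, hAc, h3]
    refine ⟨rfl, by ring, rfl, by ring, by ring⟩
  rw [hE] at φ
  exact φ.toIntLinearEquiv.finrank_eq

end Pool.Agent.L7h19.RH
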