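import Mathlib
import Pool.Agent.L7h19.RH.Ht

/-!
# The second moment over the elliptic curves with full rational 2-torsion, by height
-/

set_option autoImplicit false

namespace Pool.Agent.L7h19.RH

open Finset Filter Pool.Agent.W262.RK Pool.Agent.W307.RT
open Pool.Agent.W29.RT (nons neg_y top_root abs_le_cube abs_le_sq SS card_SS)

/-- the coefficients of the curve with the roots `-a-b`, `b`, `a` -/
def cf2 (t : ℕ × ℕ) : ℤ × ℤ :=
  (-((t.1 : ℤ) ^ 2 + t.1 * t.2 + (t.2 : ℤ) ^ 2), (t.1 : ℤ) * t.2 * (t.1 + t.2))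

lemma hasT2 {A B : ℤ} {a b : ℚ} (hA : (A : ℚ) = -(a ^ 2 + a * b + b ^ 2))
    (hB : (B : ℚ) = a * b * (a + b)) (h1 : a ≠ b) (h2 : 2 * a + b ≠ 0) (h3 : a + 2 * b ≠ 0) :
    HasT 2 (Sh A B) := by
  have hP : (Sh A B).toAffine.Nonsingular a 0 := by
    apply nons _ (Or.inr _)
    · rw [hA, hB]; ring
    · rw [hA]
      have : 3 * a ^ 2 + -(a ^ 2 + a * b + b ^ 2) = (a - b) * (2 * a + b) := by ring
      rw [this]
      exact mul_ne_zero (sub_ne_zero.2 h1) h2
  have hQ : (Sh A B).toAffine.Nonsingular b 0 := by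
    apply nons _ (Or.inr _)
    · rw [hA, hB]; ring
    · rw [hA]
      have : 3 * b ^ 2 + -(a ^ 2 + a * b + b ^ 2) = (b - a) * (a + 2 * b) := by ring
      rw [this]
      exact mul_ne_zero (sub_ne_zero.2 h1.symm) h3
  set P : (Sh A B).toAffine.Point := .some _ _ hP with hPd
  set Q : (Sh A B).toAffine.Point := .some _ _ hQ with hQd
  have hPP : P + P = 0 := by
    rw [hPd]
    apply WeierstrassCurve.Affine.Point.add_self_of_Y_eq
    rw [neg_y]; simp
  have hQQ : Q + Q = 0 := by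
    rw [hQd]
    apply WeierstrassCurve.Affine.Point.add_self_of_Y_eq
    rw [neg_y]; simp
  have hP0 : P ≠ 0 := WeierstrassCurve.Affine.Point.some_ne_zero _
  have hQ0 : Q ≠ 0 := WeierstrassCurve.Affine.Point.some_ne_zero _
  have hPQ : Q ≠ P := by
    intro h
    rw [hPd, hQd, WeierstrassCurve.Affine.Point.some.injEq] at h
    exact h1 h.1.symm
  refine ⟨P, Q, addOrderOf_eq_prime (by rw [two_nsmul]; exact hPP) hP0,
    addOrderOf_eq_prime (by rw [two_nsmul]; exact hQQ) hQ0, ?_⟩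
  intro h
  rw [AddSubgroup.mem_zmultiples_iff] at h
  obtain ⟨k, hk⟩ := h
  rcases Int.even_or_odd k with ⟨m, hm⟩ | ⟨m, hm⟩
  · apply hQ0
    rw [← hk, hm, ← two_mul, mul_comm, mul_zsmul, two_zsmul, hPP, zsmul_zero]
  · apply hPQ
    rw [← hk, hm, add_zsmul, one_zsmul, mul_comm, mul_zsmul, two_zsmul, hPP, zsmul_zero, zero_add]

lemma minim2 {a b : ℤ} (h : IsCoprime a b) {p : ℕ} (hp : p.Prime)
    (h1 : (p : ℤ) ∣ a ^ 2 + a * b + b ^ 2) (h2 : (p : ℤ) ∣ a * b * (a + b)) : False := by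
  have hpI : Prime (p : ℤ) := Nat.prime_iff_prime_int.1 hp
  apply hpI.not_isUnit
  rcases hpI.dvd_or_dvd h2 with h3 | h3
  · rcases hpI.dvd_or_dvd h3 with h4 | h4
    · have h5 : (p : ℤ) ∣ b ^ 2 := by
        have : b ^ 2 = (a ^ 2 + a * b + b ^ 2) - a * (a + b) := by ring
        rw [this]
        exact dvd_sub h1 (h4.mul_right _)
      exact h.isUnit_of_dvd' h4 (hpI.dvd_of_dvd_pow h5)
    · have h5 : (p : ℤ) ∣ a ^ 2 := by
        have : a ^ 2 = (a ^ 2 + a * b + b ^ 2) - b * (a + b) := by ring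
        rw [this]
        exact dvd_sub h1 (h4.mul_right _)
      exact h.isUnit_of_dvd' (hpI.dvd_of_dvd_pow h5) h4
  · have h5 : (p : ℤ) ∣ a * b := by
      have : a * b = (a + b) * (a + b) - (a ^ 2 + a * b + b ^ 2) := by ring
      rw [this]
      exact dvd_sub (h3.mul_right _) h1
    rcases hpI.dvd_or_dvd h5 with h6 | h6
    · exact h.isUnit_of_dvd' h6 ((dvd_add_right h6).1 h3)
    · exact h.isUnit_of_dvd' ((dvd_add_left h6).1 h3) h6

theorem mem_cv2 {T H a b : ℕ} (hb : 1 ≤ b) (hab : b < a) (haT : a ≤ T) (hc : a.Coprime b)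
    (hH : 108 * T ^ 6 ≤ H) : cf2 (a, b) ∈ Cv 2 H := by
  have hcI : IsCoprime (a : ℤ) (b : ℤ) := Nat.isCoprime_iff_coprime.2 hc
  have hbI : (1 : ℤ) ≤ b := by exact_mod_cast hb
  have habI : (b : ℤ) < a := by exact_mod_cast hab
  have haTI : (a : ℤ) ≤ T := by exact_mod_cast haT
  have hHI : 108 * (T : ℤ) ^ 6 ≤ H := by exact_mod_cast hH
  have hT0 : (0 : ℤ) < T := by linarith
  have haa : (a : ℤ) ^ 2 ≤ (T : ℤ) ^ 2 := pow_le_pow_left₀ (by linarith) haTI 2
  have hbT : (b : ℤ) ≤ T := by linarith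
  have hbb : (b : ℤ) ^ 2 ≤ (T : ℤ) ^ 2 := pow_le_pow_left₀ (by linarith) hbT 2
  have hab2 : (a : ℤ) * b ≤ (T : ℤ) ^ 2 := by nlinarith
  have hA : |(cf2 (a, b)).1| ≤ 3 * (T : ℤ) ^ 2 := by
    simp only [cf2]
    rw [abs_neg, abs_of_nonneg (by positivity)]
    linarith
  have hB : |(cf2 (a, b)).2| ≤ 2 * (T : ℤ) ^ 3 := by
    simp only [cf2]
    rw [abs_of_nonneg (by positivity)]
    calc (a : ℤ) * b * (a + b) ≤ (T : ℤ) ^ 2 * (2 * T) := by
          apply mul_le_mul hab2 (by linarith) (by linarith) (by positivity)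
      _ = 2 * (T : ℤ) ^ 3 := by ring
  have hA3 : 4 * |(cf2 (a, b)).1| ^ 3 ≤ H := by
    calc 4 * |(cf2 (a, b)).1| ^ 3 ≤ 4 * (3 * (T : ℤ) ^ 2) ^ 3 := by gcongr
      _ = 108 * (T : ℤ) ^ 6 := by ring
      _ ≤ H := hHI
  have hB2 : 27 * (cf2 (a, b)).2 ^ 2 ≤ H := by
    calc 27 * (cf2 (a, b)).2 ^ 2 = 27 * |(cf2 (a, b)).2| ^ 2 := by rw [sq_abs]
      _ ≤ 27 * (2 * (T : ℤ) ^ 3) ^ 2 := by gcongr
      _ = 108 * (T : ℤ) ^ 6 := by ring
      _ ≤ H := hHI
  unfold Cv
  simp only [mem_filter, mem_product, mem_Icc]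
  have a1 := abs_le_cube (cf2 (a, b)).1
  have a2 := abs_le_sq (cf2 (a, b)).2
  have a3 := neg_abs_le (cf2 (a, b)).1
  have a4 := le_abs_self (cf2 (a, b)).1
  have a5 := neg_abs_le (cf2 (a, b)).2
  have a6 := le_abs_self (cf2 (a, b)).2
  have a7 : 0 ≤ |(cf2 (a, b)).1| ^ 3 := by positivity
  have a8 : 0 ≤ (cf2 (a, b)).2 ^ 2 := by positivity
  refine ⟨⟨⟨by linarith, by linarith⟩, ⟨by linarith, by linarith⟩⟩, ?_, hA3, hB2, ?_, ?_⟩
  · simp only [cf2]
    have : 4 * (-((a : ℤ) ^ 2 + a * b + (b : ℤ) ^ 2)) ^ 3 + 27 * ((a : ℤ) * b * (a + b)) ^ 2 =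
        -(((a : ℤ) - b) ^ 2 * (2 * a + b) ^ 2 * (a + 2 * b) ^ 2) := by ring
    rw [this]
    have h3 : (a : ℤ) - b ≠ 0 := by intro h; linarith
    have : 0 < ((a : ℤ) - b) ^ 2 * (2 * a + b) ^ 2 * (a + 2 * b) ^ 2 := by positivity
    intro h
    linarith
  · intro p hp hh
    simp only [cf2] at hh
    refine minim2 hcI hp ?_ ?_
    · exact (dvd_neg.1 ((dvd_pow_self _ (by norm_num)).trans hh.1))
    · exact (dvd_pow_self _ (by norm_num)).trans hh.2
  · have hbq : (1 : ℚ) ≤ b := by exact_mod_cast hb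
    have habq : (b : ℚ) < a := by exact_mod_cast hab
    apply hasT2 (a := (a : ℚ)) (b := (b : ℚ))
    · simp only [cf2]; push_cast; ring
    · simp only [cf2]; push_cast; ring
    · exact habq.ne'
    · positivity
    · positivity

lemma cf2_inj {a b a' b' : ℤ} (hb : 1 ≤ b) (hab : b < a) (hb' : 1 ≤ b') (hab' : b' < a')
    (h1 : -(a ^ 2 + a * b + b ^ 2) = -(a' ^ 2 + a' * b' + b' ^ 2))
    (h2 : a * b * (a + b) = a' * b' * (a' + b')) : a = a' ∧ b = b' := by
  have H : ∀ x : ℤ, (x - a) * (x - b) * (x - (-a - b)) =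
      (x - a') * (x - b') * (x - (-a' - b')) := by
    intro x
    linear_combination x * h1 + h2
  have t1 := top_root H (by linarith) (by linarith) (by linarith) (by linarith)
  have H2 : ∀ x : ℤ, (x - (a + b)) * (x - (-a)) * (x - (-b)) =
      (x - (a' + b')) * (x - (-a')) * (x - (-b')) := by
    intro x
    have := H (-x)
    linear_combination (-1) * this
  have t2 := top_root H2 (by linarith) (by linarith) (by linarith) (by linarith)
  exact ⟨t1, by linarith⟩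

theorem low2 : LOW 2 6 := by
  refine ⟨1 / 24, 108, 5, by norm_num, fun T H hT hH => ?_⟩
  have h1 : (SS T).card ≤ (Cv 2 H).card := by
    apply card_le_card_of_injOn (fun t => cf2 (t.1, t.2))
    · intro t ht
      have ht' : t ∈ SS T := ht
      unfold SS at ht'
      rw [mem_sigma, mem_Icc, mem_filter, mem_range] at ht'
      obtain ⟨⟨k1, k2⟩, k3, k4⟩ := ht'
      have hb : 1 ≤ t.2 := by
        rcases Nat.eq_zero_or_pos t.2 with h | h
        · rw [h, Nat.coprime_zero_right] at k4; omega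
        · exact h
      exact mem_cv2 hb k3 k2 k4 hH
    · intro t ht t' ht' h
      have ht1 : t ∈ SS T := ht
      have ht1' : t' ∈ SS T := ht'
      unfold SS at ht1 ht1'
      rw [mem_sigma, mem_Icc, mem_filter, mem_range] at ht1 ht1'
      obtain ⟨⟨k1, k2⟩, k3, k4⟩ := ht1
      obtain ⟨⟨k1', k2'⟩, k3', k4'⟩ := ht1'
      have hb : 1 ≤ t.2 := by
        rcases Nat.eq_zero_or_pos t.2 with h | h
        · rw [h, Nat.coprime_zero_right] at k4; omega
        · exact h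
      have hb' : 1 ≤ t'.2 := by
        rcases Nat.eq_zero_or_pos t'.2 with h | h
        · rw [h, Nat.coprime_zero_right] at k4'; omega
        · exact h
      have h' : cf2 (t.1, t.2) = cf2 (t'.1, t'.2) := h
      simp only [cf2, Prod.mk.injEq] at h'
      obtain ⟨e1, e2⟩ := cf2_inj (by exact_mod_cast hb) (by exact_mod_cast k3)
        (by exact_mod_cast hb') (by exact_mod_cast k3') h'.1 h'.2
      have e1' : t.1 = t'.1 := by exact_mod_cast e1
      have e2' : t.2 = t'.2 := by exact_mod_cast e2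
      exact Sigma.ext e1' (heq_of_eq e2')
  have h2 := card_SS T hT
  have h3 : (T : ℝ) ^ 2 ≤ 24 * ((SS T).card : ℝ) := by exact_mod_cast h2
  have h4 : ((SS T).card : ℝ) ≤ ((Cv 2 H).card : ℝ) := by exact_mod_cast h1
  linarith

/-- the box -/
lemma fck (k : Fin 3) : fc (c4 (id : Fin 3 → Fin 3)) k = {k} := by
  ext l
  unfold fc c4
  rw [mem_filter, mem_singleton]
  simp

theorem box2 : ∃ C : ℝ, 0 ≤ C ∧ ∀ X : ℕ, 1 ≤ X →
    ∑ t ∈ (Box X).filter (fun t => t.1 ≠ 0 ∧ t.2 ≠ 0 ∧ t.1 ≠ t.2),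
      (4 : ℝ) ^ Module.finrank ℤ (EAB t.1 t.2).toAffine.Point ≤ C * (X : ℝ) ^ 2 := by
  classical
  set α : Fin 3 → ℤ := ![1, 0, 1] with hα
  set β : Fin 3 → ℤ := ![0, 1, -1] with hβ
  have hFM : ∀ u v : ℤ, ∀ k, FM (c4 (id : Fin 3 → Fin 3)) (fun _ => 1) (fun _ => 1)
      (fv α β u v) k = fv α β u v k := by
    intro u v k
    unfold FM
    rw [fck, prod_singleton, pow_one, one_mul]
  have f0 : ∀ u v : ℤ, fv α β u v 0 = u := by intro u v; simp [fv, hα, hβ]
  have f1 : ∀ u v : ℤ, fv α β u v 1 = v := by intro u v; simp [fv, hα, hβ]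
  have f2 : ∀ u v : ℤ, fv α β u v 2 = u - v := by intro u v; simp [fv, hα, hβ]; ring
  obtain ⟨C, hC0, hC⟩ := allh (id : Fin 3 → Fin 3) 1 (by decide) (fun _ => 1) (fun _ => 1) α β
    (fun _ => one_ne_zero) (fun _ => odd_one)
    (by
      intro j l hjl
      unfold Res
      rw [hα, hβ]
      revert j l
      decide) 1 odd_one (fun k => by rw [fck, sum_singleton]) (fun u v => by
      rw [hFM, hFM, hFM, f0, f1, f2])
  refine ⟨C, hC0, fun X hX => ?_⟩
  have h := hC 1 one_ne_zero X hX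
  have e1 : (Box X).filter (fun t => t.1 ≠ 0 ∧ t.2 ≠ 0 ∧ t.1 ≠ t.2) =
      (Box X).filter (fun t => ∀ j, fv α β t.1 t.2 j ≠ 0) := by
    apply filter_congr
    intro t _
    constructor
    · rintro ⟨h1, h2, h3⟩ j
      fin_cases j
      · show fv α β t.1 t.2 0 ≠ 0
        rw [f0]; exact h1
      · show fv α β t.1 t.2 1 ≠ 0
        rw [f1]; exact h2
      · show fv α β t.1 t.2 2 ≠ 0
        rw [f2]; exact sub_ne_zero.2 h3
    · intro h
      refine ⟨?_, ?_, ?_⟩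
      · have := h 0
        rwa [f0] at this
      · have := h 1
        rwa [f1] at this
      · have := h 2
        rw [f2] at this
        exact sub_ne_zero.1 this
  rw [e1]
  have e2 : ∀ t : ℤ × ℤ, R1 (id : Fin 3 → Fin 3) (fun _ => 1) (fun _ => 1) α β 1 t =
      (4 : ℝ) ^ Module.finrank ℤ (EAB t.1 t.2).toAffine.Point := by
    intro t
    unfold R1
    rw [hFM, hFM, f0, f1, one_mul, one_mul]
  rw [sum_congr rfl fun t _ => (e2 t).symm]
  refine le_trans (le_of_eq ?_) (h.trans (le_of_eq (by simp)))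
  apply Finset.sum_congr _ (fun _ _ => rfl)
  ext t
  simp only [mem_filter]

end Pool.Agent.L7h19.RH
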